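import Pool.Agent.Helper67.KSZ.ZetaB

/-! KSZ (MP_768c9c_nt): zeta near the line 1 (A6). -/

set_option autoImplicit false
open Filter Topology Asymptotics

namespace Pool.Agent.Helper67.KSZ

/-- A6: near the line 1 -/
theorem A6 (K : ℝ) (hK : 1 ≤ K) : ∃ t0 : ℝ, 3 ≤ t0 ∧ ∀ t σ : ℝ, t0 ≤ t →
    1 - K * Real.log (Real.log t) / Real.log t ≤ σ →
    ‖riemannZeta ((σ : ℂ) + (t : ℂ) * Complex.I)‖ ≤ Real.log t ^ 3 := by
  have hK0 : 0 < K := by linarith
  obtain ⟨C0, hC0, h0⟩ := zeta_of_blocks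
  obtain ⟨C1, hC1, h1⟩ := A5c
  set A : ℝ := max K 2 with hA
  have hA1 : 1 ≤ A := le_trans (by norm_num) (le_max_right K 2)
  have hAK : K ≤ A := le_max_left _ _
  have hA2 : 2 ≤ A := le_max_right _ _
  obtain ⟨c, C3, hc, hC3, h3⟩ := A3 A hA1
  -- eventual inequalities
  have ev1 : ∀ᶠ t : ℝ in atTop, K * Real.log (Real.log t) / Real.log t ≤ 1 / 2 := by
    have e1 := (Real.isLittleO_log_id_atTop.comp_tendsto Real.tendsto_log_atTop).def
      (show 0 < 1 / (2 * K) by positivity)
    filter_upwards [e1, eventually_ge_atTop (Real.exp 1)] with t ht ht1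
    have hL : 1 ≤ Real.log t := by
      rw [← Real.log_exp 1]; exact Real.log_le_log (Real.exp_pos 1) ht1
    simp only [Function.comp_apply, id_eq, Real.norm_eq_abs] at ht
    rw [abs_of_pos (show 0 < Real.log t by linarith)] at ht
    have h5 : Real.log (Real.log t) ≤ 1 / (2 * K) * Real.log t := (le_abs_self _).trans ht
    rw [div_le_iff₀ (by linarith)]
    calc K * Real.log (Real.log t) ≤ K * (1 / (2 * K) * Real.log t) := by gcongr
      _ = 1 / 2 * Real.log t := by field_simp
  have ev2 : ∀ᶠ t : ℝ in atTop, C3 * (Real.log t ^ (2 * K) * t ^ (-(c / K))) ≤ 1 := by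
    have e1 := (isLittleO_log_rpow_rpow_atTop (2 * K) (show 0 < c / K by positivity)).def
      (show 0 < 1 / C3 by positivity)
    filter_upwards [e1, eventually_ge_atTop (Real.exp 1)] with t ht ht1
    have ht0 : 0 < t := lt_of_lt_of_le (Real.exp_pos 1) ht1
    have hL : 1 ≤ Real.log t := by
      rw [← Real.log_exp 1]; exact Real.log_le_log (Real.exp_pos 1) ht1
    rw [Real.norm_of_nonneg (by positivity), Real.norm_of_nonneg (by positivity)] at ht
    rw [Real.rpow_neg ht0.le]
    have hp : 0 < t ^ (c / K) := by positivity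
    calc C3 * (Real.log t ^ (2 * K) * (t ^ (c / K))⁻¹) ≤
        C3 * ((1 / C3 * t ^ (c / K)) * (t ^ (c / K))⁻¹) := by gcongr
      _ = 1 := by field_simp
  obtain ⟨t1, ht1⟩ := eventually_atTop.1 ev1
  obtain ⟨t2, ht2⟩ := eventually_atTop.1 ev2
  refine ⟨max (max t1 t2) (max (Real.exp (C0 + C1 + 1)) 3), le_trans (le_max_right _ _) (le_max_right _ _), ?_⟩
  intro t σ ht hσ
  have b1 := ht1 t (le_trans (le_trans (le_max_left _ _) (le_max_left _ _)) ht)
  have b2 := ht2 t (le_trans (le_trans (le_max_right _ _) (le_max_left _ _)) ht)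
  have b3 : Real.exp (C0 + C1 + 1) ≤ t := le_trans (le_trans (le_max_left _ _) (le_max_right _ _)) ht
  have b4 : 3 ≤ t := le_trans (le_trans (le_max_right _ _) (le_max_right _ _)) ht
  set L := Real.log t with hL
  have hLC : C0 + C1 + 1 ≤ L := by
    rw [hL, ← Real.log_exp (C0 + C1 + 1)]; exact Real.log_le_log (Real.exp_pos _) b3
  have hL1 : 1 ≤ L := by linarith
  have ht0 : 0 < t := by linarith
  have htr : 1 ≤ t := by linarith
  have hL2 : L ≤ L ^ 2 := by nlinarith
  rcases le_total 1 σ with h | h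
  · refine (h1 σ t (by linarith) h).trans ?_
    calc C1 * L ≤ L * L := by gcongr; linarith
      _ ≤ L ^ 3 := by nlinarith
  have hσ2 : 1 / 2 ≤ σ := by linarith
  have hσ3 : 1 - σ ≤ K * Real.log L / L := by linarith
  have h5 := h0 σ t L hσ2 (by linarith) (by linarith) hL1 ?_
  · refine h5.trans ?_
    calc C0 * L * L ≤ L * L * L := by gcongr; linarith
      _ = L ^ 3 := by ring
  · intro N N1 hN hN1 hN2 hN3
    have hNr : (1 : ℝ) ≤ N := by exact_mod_cast hN
    have hN0 : (0 : ℝ) < N := by linarith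
    -- `x^(1-σ)` for `x = t^a`
    have hpow : t ^ (1 - σ) ≤ L ^ K := by
      rw [Real.rpow_def_of_pos ht0, Real.rpow_def_of_pos (by linarith : (0 : ℝ) < L)]
      apply Real.exp_le_exp.2
      rw [← hL]
      calc L * (1 - σ) ≤ L * (K * Real.log L / L) := by gcongr
        _ = Real.log L * K := by field_simp
    have hpos1 : 0 < t ^ (1 - σ) := by positivity
    rcases le_total (N : ℝ) (t ^ (1 / K)) with h' | h'
    · refine (abel_pow (B := N) hN (by linarith) (by positivity) ?_).trans ?_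
      · intro N' a b
        exact norm_Sit_le t (by omega)
      · have e3 : (N : ℝ) ^ (-σ) * N = (N : ℝ) ^ (1 - σ) := by
          rw [show (1 - σ) = -σ + 1 by ring, Real.rpow_add hN0, Real.rpow_one]
        rw [e3]
        calc (N : ℝ) ^ (1 - σ) ≤ (t ^ (1 / K)) ^ (1 - σ) :=
              Real.rpow_le_rpow hN0.le h' (by linarith)
          _ = (t ^ (1 - σ)) ^ (1 / K) := by
              rw [← Real.rpow_mul ht0.le, ← Real.rpow_mul ht0.le]; congr 1; ring
          _ ≤ (L ^ K) ^ (1 / K) := Real.rpow_le_rpow hpos1.le hpow (by positivity)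
          _ = L := by
              rw [← Real.rpow_mul (by linarith), mul_one_div_cancel hK0.ne', Real.rpow_one]
    · have hNt2 : (N : ℝ) ≤ t ^ 2 := by
        have : (N : ℝ) ≤ N1 := by exact_mod_cast hN1.le
        linarith
      have c1 : (N : ℝ) ^ (1 / A) ≤ t := by
        calc (N : ℝ) ^ (1 / A) ≤ (N : ℝ) ^ (1 / 2 : ℝ) :=
              Real.rpow_le_rpow_of_exponent_le hNr (one_div_le_one_div_of_le (by norm_num) hA2)
          _ ≤ t := by
              rw [← Real.sqrt_eq_rpow]
              exact Real.sqrt_le_iff.2 ⟨ht0.le, hNt2⟩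
      have c2 : t ≤ (N : ℝ) ^ A := by
        calc t = (t ^ (1 / K)) ^ K := by
              rw [← Real.rpow_mul ht0.le, one_div_mul_cancel hK0.ne', Real.rpow_one]
          _ ≤ (N : ℝ) ^ K := Real.rpow_le_rpow (by positivity) h' hK0.le
          _ ≤ (N : ℝ) ^ A := Real.rpow_le_rpow_of_exponent_le hNr hAK
      refine (abel_pow (B := C3 * (N : ℝ) ^ (1 - c)) hN (by linarith) (by positivity) ?_).trans ?_
      · intro N' a b
        exact h3 N N' t hN a (by omega) c1 c2
      · have e3 : (N : ℝ) ^ (-σ) * (C3 * (N : ℝ) ^ (1 - c)) =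
            C3 * ((N : ℝ) ^ (1 - σ) * (N : ℝ) ^ (-c)) := by
          have : (N : ℝ) ^ (-σ) * (N : ℝ) ^ (1 - c) = (N : ℝ) ^ (1 - σ) * (N : ℝ) ^ (-c) := by
            rw [← Real.rpow_add hN0, ← Real.rpow_add hN0]; congr 1; ring
          linear_combination C3 * this
        rw [e3]
        have d1 : (N : ℝ) ^ (1 - σ) ≤ L ^ (2 * K) := by
          calc (N : ℝ) ^ (1 - σ) ≤ (t ^ 2) ^ (1 - σ) := Real.rpow_le_rpow hN0.le hNt2 (by linarith)
            _ = (t ^ (1 - σ)) ^ (2 : ℝ) := by
                rw [← Real.rpow_natCast, ← Real.rpow_mul ht0.le, ← Real.rpow_mul ht0.le]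
                congr 1; push_cast; ring
            _ ≤ (L ^ K) ^ (2 : ℝ) := Real.rpow_le_rpow hpos1.le hpow (by norm_num)
            _ = L ^ (2 * K) := by rw [← Real.rpow_mul (by linarith)]; congr 1; ring
        have d2 : (N : ℝ) ^ (-c) ≤ t ^ (-(c / K)) := by
          calc (N : ℝ) ^ (-c) ≤ (t ^ (1 / K)) ^ (-c) :=
                Real.rpow_le_rpow_of_nonpos (by positivity) h' (by linarith)
            _ = t ^ (-(c / K)) := by rw [← Real.rpow_mul ht0.le]; congr 1; ring
        calc C3 * ((N : ℝ) ^ (1 - σ) * (N : ℝ) ^ (-c)) ≤ C3 * (L ^ (2 * K) * t ^ (-(c / K))) := by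
              gcongr
          _ ≤ 1 := b2
          _ ≤ L := hL1

end Pool.Agent.Helper67.KSZ
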