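import Pool.Agent.Helper46.KSZ.St

/-! KSZ-E4 (MP_768c9c_nt): sums over the zeros in a box. -/

set_option autoImplicit false
open Filter Topology MeasureTheory Complex
open scoped Classical

namespace Pool.Agent.Helper67.KSZ.E4

open Pool.Agent.Helper10.QRH Pool.Agent.Helper69.QRH Pool.Agent.Helper46.KSZ

theorem Qp_add (A B : Multiset ℂ) (z : ℂ) : Qp (A + B) z = Qp A z * Qp B z := by
  simp [Qp, Multiset.map_add, Multiset.prod_add]

/-- the index of a point: `ρ.im ≈ m / 4` -/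
noncomputable def rr (ρ : ℂ) : ℤ := round (4 * ρ.im)

theorem rr_spec (ρ : ℂ) : |ρ.im - (rr ρ : ℝ) / 4| ≤ 1 / 8 := by
  have h := abs_sub_round (4 * ρ.im)
  have e : ρ.im - (rr ρ : ℝ) / 4 = (4 * ρ.im - (round (4 * ρ.im) : ℝ)) / 4 := by
    unfold rr; ring
  rw [e, abs_div, abs_of_pos (show (0 : ℝ) < 4 by norm_num)]
  linarith

theorem sum_fibers {ι : Type*} (I : Finset ℤ) (r : ι → ℤ) (g : ι → ℝ) (N : Multiset ι)
    (h : ∀ ρ ∈ N, r ρ ∈ I) :
    (N.map g).sum = ∑ m ∈ I, ((N.filter (fun ρ => r ρ = m)).map g).sum := by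
  induction N using Multiset.induction_on with
  | empty => simp
  | cons a N ih =>
    rw [Multiset.map_cons, Multiset.sum_cons, ih (fun ρ hρ => h ρ (Multiset.mem_cons_of_mem hρ))]
    have e : ∀ m ∈ I, (((a ::ₘ N).filter (fun ρ => r ρ = m)).map g).sum =
        (if r a = m then g a else 0) + ((N.filter (fun ρ => r ρ = m)).map g).sum := by
      intro m _
      by_cases hm : r a = m
      · rw [Multiset.filter_cons_of_pos (p := fun ρ => r ρ = m) N hm, Multiset.map_cons, Multiset.sum_cons, if_pos hm]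
      · rw [Multiset.filter_cons_of_neg (p := fun ρ => r ρ = m) N hm, if_neg hm, zero_add]
    rw [Finset.sum_congr rfl e, Finset.sum_add_distrib, Finset.sum_ite_eq,
      if_pos (h a (Multiset.mem_cons_self a N))]

/-- the fibres are small -/
theorem fiber_card (h : JensenEZ) : ∃ C : ℝ, 0 < C ∧ ∀ (T : ℝ) (M : Multiset ℂ) (Z : ℂ → ℂ), 1 ≤ T →
    Box T M Z → ∀ (N : Multiset ℂ), N ≤ M → ∀ m : ℤ,
    (Multiset.card (N.filter (fun ρ => rr ρ = m)) : ℝ) ≤ C * Real.log (|(m : ℝ) / 4| + 2) := by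
  obtain ⟨C, hC, hJ⟩ := h
  refine ⟨C, hC, ?_⟩
  intro T M Z hT hB N hNM m
  have h1 : Multiset.card (N.filter (fun ρ => rr ρ = m)) ≤
      Multiset.card (M.filter (fun ρ => rr ρ = m)) :=
    Multiset.card_le_card (Multiset.filter_le_filter _ hNM)
  have h2 := hJ (M.filter (fun ρ => rr ρ = m))
    (fun z => Qp (M.filter (fun ρ => ¬ rr ρ = m)) z * Z z)
    ((Qp_differentiable _).mul hB.diff) (fun z => by
      rw [hB.eq z, ← mul_assoc, ← Qp_add, Multiset.filter_add_not]) ((m : ℝ) / 4) (by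
      intro ρ hρ
      have hρM := Multiset.mem_filter.1 hρ
      obtain ⟨_, h3, h4, _⟩ := hB.mem ρ hρM.1
      have h5 := rr_spec ρ
      rw [hρM.2] at h5
      have h6 := abs_le.1 h5
      have e1 : (ρ - (2 + (((m : ℝ) / 4 : ℝ) : ℂ) * Complex.I)).re = ρ.re - 2 := by simp
      have e2 : (ρ - (2 + (((m : ℝ) / 4 : ℝ) : ℂ) * Complex.I)).im = ρ.im - (m : ℝ) / 4 := by
        simp only [Complex.sub_im, Complex.add_im, Complex.mul_im, Complex.ofReal_re,
          Complex.I_im, mul_one, Complex.ofReal_im, Complex.I_re, mul_zero, add_zero]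
        simp
      have e3 : ‖ρ - (2 + (((m : ℝ) / 4 : ℝ) : ℂ) * Complex.I)‖ ^ 2 ≤ 1.45 ^ 2 := by
        rw [Complex.sq_norm, Complex.normSq_apply, e1, e2]
        nlinarith
      exact le_of_sq_le_sq e3 (by norm_num))
  exact (by exact_mod_cast h1 : (Multiset.card (N.filter (fun ρ => rr ρ = m)) : ℝ) ≤
    (Multiset.card (M.filter (fun ρ => rr ρ = m)) : ℝ)).trans h2

theorem log_facts {T : ℝ} (hT : 1 ≤ T) : 1 ≤ Real.log (T + 2) := by
  have h1 : Real.exp 1 ≤ T + 2 := by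
    have := Real.exp_one_lt_d9
    linarith
  rw [← Real.log_exp 1]
  exact Real.log_le_log (Real.exp_pos 1) h1

theorem rr_mem {T : ℝ} {ρ : ℂ} (h : |ρ.im| < T + 2) :
    rr ρ ∈ Finset.Icc (-(⌈4 * (T + 2)⌉ + 1)) (⌈4 * (T + 2)⌉ + 1) := by
  have h1 := rr_spec ρ
  have h2 := abs_le.1 h1
  have h3 := abs_lt.1 h
  have h4 := Int.le_ceil (4 * (T + 2))
  rw [Finset.mem_Icc]
  constructor
  · have : (-(⌈4 * (T + 2)⌉ + 1 : ℤ) : ℝ) ≤ (rr ρ : ℝ) := by push_cast; linarith
    exact_mod_cast this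
  · have : (rr ρ : ℝ) ≤ ((⌈4 * (T + 2)⌉ + 1 : ℤ) : ℝ) := by push_cast; linarith
    exact_mod_cast this

theorem log_m {T : ℝ} (hT : 1 ≤ T) {m : ℤ}
    (hm : m ∈ Finset.Icc (-(⌈4 * (T + 2)⌉ + 1)) (⌈4 * (T + 2)⌉ + 1)) :
    Real.log (|(m : ℝ) / 4| + 2) ≤ 2 * Real.log (T + 2) := by
  rw [Finset.mem_Icc] at hm
  have h4 := Int.ceil_lt_add_one (4 * (T + 2))
  have h1 : (-(⌈4 * (T + 2)⌉ + 1 : ℤ) : ℝ) ≤ (m : ℝ) := by exact_mod_cast hm.1
  have h2 : (m : ℝ) ≤ ((⌈4 * (T + 2)⌉ + 1 : ℤ) : ℝ) := by exact_mod_cast hm.2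
  push_cast at h1 h2
  have h3 : |(m : ℝ) / 4| ≤ T + 3 := by
    rw [abs_le]; constructor <;> linarith
  have h5 : |(m : ℝ) / 4| + 2 ≤ (T + 2) ^ 2 := by nlinarith
  have h6 := Real.log_le_log (by positivity) h5
  rw [Real.log_pow] at h6
  exact_mod_cast h6

theorem cardBox (h : JensenEZ) : CardBox := by
  obtain ⟨C, hC, hF⟩ := fiber_card h
  refine ⟨C * 2 * 40, by positivity, ?_⟩
  intro T M Z hT hB
  set I := Finset.Icc (-(⌈4 * (T + 2)⌉ + 1)) (⌈4 * (T + 2)⌉ + 1) with hI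
  have h1 := sum_fibers I rr (fun _ => (1 : ℝ)) M (fun ρ hρ => rr_mem (hB.mem ρ hρ).2.2.2)
  have h2 : (M.map (fun _ => (1 : ℝ))).sum = Multiset.card M := by simp
  rw [h2] at h1
  rw [h1]
  have h3 : ∀ m ∈ I, ((M.filter (fun ρ => rr ρ = m)).map (fun _ => (1 : ℝ))).sum ≤
      C * (2 * Real.log (T + 2)) := by
    intro m hm
    have : ((M.filter (fun ρ => rr ρ = m)).map (fun _ => (1 : ℝ))).sum =
        Multiset.card (M.filter (fun ρ => rr ρ = m)) := by simp
    rw [this]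
    refine (hF T M Z hT hB M le_rfl m).trans ?_
    gcongr
    exact log_m hT hm
  refine (Finset.sum_le_card_nsmul _ _ _ h3).trans ?_
  have h4 : (I.card : ℝ) ≤ 40 * T := by
    rw [hI, Int.card_Icc]
    have h5 := Int.ceil_lt_add_one (4 * (T + 2))
    have h6 : (0 : ℝ) ≤ ⌈4 * (T + 2)⌉ := by exact_mod_cast Int.ceil_nonneg (by linarith)
    have h6' : (0 : ℤ) ≤ ⌈4 * (T + 2)⌉ := Int.ceil_nonneg (by linarith)
    have h7 : (((⌈4 * (T + 2)⌉ + 1 + 1 - -(⌈4 * (T + 2)⌉ + 1)).toNat : ℕ) : ℤ) =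
        ⌈4 * (T + 2)⌉ + 1 + 1 - -(⌈4 * (T + 2)⌉ + 1) := Int.toNat_of_nonneg (by linarith)
    have h8 : (((⌈4 * (T + 2)⌉ + 1 + 1 - -(⌈4 * (T + 2)⌉ + 1)).toNat : ℕ) : ℝ) =
        ((⌈4 * (T + 2)⌉ + 1 + 1 - -(⌈4 * (T + 2)⌉ + 1) : ℤ) : ℝ) := by exact_mod_cast h7
    rw [h8]
    push_cast
    linarith
  rw [nsmul_eq_mul]
  have hl := log_facts hT
  have h5 : (0 : ℝ) ≤ C * (2 * Real.log (T + 2)) := by positivity
  calc (I.card : ℝ) * (C * (2 * Real.log (T + 2))) ≤ 40 * T * (C * (2 * Real.log (T + 2))) := by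
        gcongr
    _ = _ := by ring

/-- harmonic sums -/
theorem harm_le (n : ℕ) : ∑ i ∈ Finset.range (n + 1), (1 : ℝ) / (1 + i) ≤ 1 + Real.log (n + 1) := by
  have h := harmonic_le_one_add_log (n + 1)
  have e : ((harmonic (n + 1) : ℚ) : ℝ) = ∑ i ∈ Finset.range (n + 1), (1 : ℝ) / (1 + i) := by
    unfold harmonic
    push_cast
    apply Finset.sum_congr rfl
    intro i _
    rw [one_div, add_comm]
  rw [← e]
  refine h.trans (le_of_eq ?_)
  push_cast
  rfl

theorem sum_int_le (J : ℕ) (k0 : ℤ) (hk : |k0| ≤ J) :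
    ∑ m ∈ Finset.Icc (-(J : ℤ)) J, (1 : ℝ) / (1 + |((m - k0 : ℤ) : ℝ)|) ≤
      2 * ∑ i ∈ Finset.range (2 * J + 1), (1 : ℝ) / (1 + i) := by
  have hk' := abs_le.1 hk
  -- split in `m ≥ k0` and `m < k0`
  have e : Finset.Icc (-(J : ℤ)) J =
      (Finset.Icc (-(J : ℤ)) J).filter (fun m => k0 ≤ m) ∪
        (Finset.Icc (-(J : ℤ)) J).filter (fun m => ¬ k0 ≤ m) :=
    (Finset.filter_union_filter_not_eq _ _).symm
  rw [e, Finset.sum_union (Finset.disjoint_filter_filter_not _ _ _), two_mul]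
  apply add_le_add
  · have : ∑ m ∈ (Finset.Icc (-(J : ℤ)) J).filter (fun m => k0 ≤ m),
        (1 : ℝ) / (1 + |((m - k0 : ℤ) : ℝ)|) =
        ∑ i ∈ ((Finset.Icc (-(J : ℤ)) J).filter (fun m => k0 ≤ m)).image (fun m => (m - k0).toNat),
          (1 : ℝ) / (1 + i) := by
      rw [Finset.sum_image]
      · apply Finset.sum_congr rfl
        intro m hm
        have h1 := (Finset.mem_filter.1 hm).2
        have h2 : (((m - k0).toNat : ℕ) : ℤ) = m - k0 := Int.toNat_of_nonneg (by linarith)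
        have h3 : (((m - k0).toNat : ℕ) : ℝ) = ((m - k0 : ℤ) : ℝ) := by exact_mod_cast h2
        rw [h3, abs_of_nonneg]
        exact_mod_cast (by linarith : 0 ≤ m - k0)
      · intro a ha b hb hab
        have h1 := (Finset.mem_filter.1 ha).2
        have h2 := (Finset.mem_filter.1 hb).2
        simp only at hab
        omega
    rw [this]
    apply Finset.sum_le_sum_of_subset_of_nonneg
    · intro i hi
      obtain ⟨m, hm, rfl⟩ := Finset.mem_image.1 hi
      have h1 := Finset.mem_filter.1 hm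
      have h2 := Finset.mem_Icc.1 h1.1
      rw [Finset.mem_range]
      omega
    · intro i _ _
      positivity
  · have : ∑ m ∈ (Finset.Icc (-(J : ℤ)) J).filter (fun m => ¬ k0 ≤ m),
        (1 : ℝ) / (1 + |((m - k0 : ℤ) : ℝ)|) =
        ∑ i ∈ ((Finset.Icc (-(J : ℤ)) J).filter (fun m => ¬ k0 ≤ m)).image
          (fun m => (k0 - m).toNat), (1 : ℝ) / (1 + i) := by
      rw [Finset.sum_image]
      · apply Finset.sum_congr rfl
        intro m hm
        have h1 := (Finset.mem_filter.1 hm).2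
        have h2 : (((k0 - m).toNat : ℕ) : ℤ) = k0 - m := Int.toNat_of_nonneg (by omega)
        have h3 : (((k0 - m).toNat : ℕ) : ℝ) = ((k0 - m : ℤ) : ℝ) := by exact_mod_cast h2
        rw [h3]
        have h4 : |((m - k0 : ℤ) : ℝ)| = ((k0 - m : ℤ) : ℝ) := by
          rw [abs_of_nonpos]
          · push_cast; ring
          · exact_mod_cast (by omega : m - k0 ≤ 0)
        rw [h4]
      · intro a ha b hb hab
        have h1 := (Finset.mem_filter.1 ha).2
        have h2 := (Finset.mem_filter.1 hb).2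
        simp only at hab
        omega
    rw [this]
    apply Finset.sum_le_sum_of_subset_of_nonneg
    · intro i hi
      obtain ⟨m, hm, rfl⟩ := Finset.mem_image.1 hi
      have h1 := Finset.mem_filter.1 hm
      have h2 := Finset.mem_Icc.1 h1.1
      rw [Finset.mem_range]
      omega
    · intro i _ _
      positivity

theorem sum_real_le (J : ℕ) (x : ℝ) :
    ∑ m ∈ Finset.Icc (-(J : ℤ)) J, (1 : ℝ) / (1 + |x - m|) ≤ 4 * (1 + Real.log (2 * J + 1)) := by
  set k0 : ℤ := max (-(J : ℤ)) (min J ⌊x⌋) with hk0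
  have hk : |k0| ≤ J := by
    rw [abs_le, hk0]
    constructor
    · exact le_max_left _ _
    · apply max_le
      · have : (0 : ℤ) ≤ J := Int.natCast_nonneg J
        linarith
      · exact min_le_left _ _
  have h1 : ∀ m ∈ Finset.Icc (-(J : ℤ)) J, (1 : ℝ) / (1 + |x - m|) ≤
      2 * (1 / (1 + |((m - k0 : ℤ) : ℝ)|)) := by
    intro m hm
    have hm' := Finset.mem_Icc.1 hm
    have h2 : |((m - k0 : ℤ) : ℝ)| ≤ |x - m| + 1 := by
      have hf1 := Int.floor_le x
      have hf2 := Int.lt_floor_add_one x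
      push_cast
      rcases le_total ⌊x⌋ (-(J : ℤ)) with c | c
      · -- k0 = -J
        have e : k0 = -(J : ℤ) := by
          rw [hk0, max_eq_left]
          exact (min_le_right _ _).trans c
        have c1 : (⌊x⌋ : ℝ) ≤ -(J : ℝ) := by exact_mod_cast c
        have c2 : -(J : ℝ) ≤ (m : ℝ) := by exact_mod_cast hm'.1
        rw [e]
        push_cast
        rw [abs_of_nonneg (by linarith)]
        have := neg_abs_le (x - m)
        linarith
      · rcases le_total (J : ℤ) ⌊x⌋ with c' | c'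
        · have e : k0 = (J : ℤ) := by
            rw [hk0, min_eq_left c', max_eq_right]
            have : (0 : ℤ) ≤ J := Int.natCast_nonneg J
            linarith
          have c1 : (J : ℝ) ≤ (⌊x⌋ : ℝ) := by exact_mod_cast c'
          have c2 : (m : ℝ) ≤ (J : ℝ) := by exact_mod_cast hm'.2
          rw [e]
          push_cast
          rw [abs_of_nonpos (by linarith)]
          have := le_abs_self (x - m)
          linarith
        · have e : k0 = ⌊x⌋ := by
            rw [hk0, min_eq_right c', max_eq_right c]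
          rw [e]
          have := abs_le.1 (le_refl |x - m|)
          rw [abs_le]
          constructor
          · have := neg_abs_le (x - m)
            have := le_abs_self (x - m)
            linarith
          · have := neg_abs_le (x - m)
            linarith
    have h3 := abs_nonneg (x - m)
    have h4 := abs_nonneg (((m - k0 : ℤ) : ℝ))
    rw [mul_one_div, div_le_div_iff₀ (by linarith) (by linarith)]
    linarith
  refine (Finset.sum_le_sum h1).trans ?_
  rw [← Finset.mul_sum]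
  have h2 := sum_int_le J k0 hk
  have h3 := harm_le (2 * J)
  push_cast at h3
  linarith

theorem farSum (h : JensenEZ) : FarSum := by
  obtain ⟨C, hC, hF⟩ := fiber_card h
  refine ⟨C * 2 * 1670 * 4 * 5, by positivity, ?_⟩
  intro T M Z hT hB N hNM s hs
  have hl := log_facts hT
  set J : ℕ := (⌈4 * (T + 2)⌉ + 1).toNat with hJ
  have hcn : (0 : ℤ) ≤ ⌈4 * (T + 2)⌉ := Int.ceil_nonneg (by linarith)
  have hJZ : (J : ℤ) = ⌈4 * (T + 2)⌉ + 1 := Int.toNat_of_nonneg (by linarith)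
  have hI : ∀ ρ ∈ N, rr ρ ∈ Finset.Icc (-(J : ℤ)) J := by
    intro ρ hρ
    rw [hJZ]
    exact rr_mem (hB.mem ρ (Multiset.mem_of_le hNM hρ)).2.2.2
  rw [sum_fibers _ rr _ N hI]
  set x : ℝ := 4 * s.im with hx
  have h1 : ∀ m ∈ Finset.Icc (-(J : ℤ)) J,
      ((N.filter (fun ρ => rr ρ = m)).map (fun ρ => 1 / ‖s - ρ‖)).sum ≤
      C * (2 * Real.log (T + 2)) * (1670 * (1 / (1 + |x - m|))) := by
    intro m hm
    have h2 : ∀ y ∈ (N.filter (fun ρ => rr ρ = m)).map (fun ρ => 1 / ‖s - ρ‖),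
        y ≤ 1670 * (1 / (1 + |x - m|)) := by
      intro y hy
      obtain ⟨ρ, hρ, rfl⟩ := Multiset.mem_map.1 hy
      have hρ' := Multiset.mem_filter.1 hρ
      have h3 := hs ρ hρ'.1
      have h4 := rr_spec ρ
      rw [hρ'.2] at h4
      have h5 : |s.im - ρ.im| ≤ ‖s - ρ‖ := by
        have := Complex.abs_im_le_norm (s - ρ)
        simpa using this
      have hpos : 0 < ‖s - ρ‖ := by linarith
      have hax := abs_nonneg (x - m)
      rw [mul_one_div, div_le_div_iff₀ hpos (by linarith)]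
      have h6 : |x - m| ≤ 4 * |s.im - ρ.im| + 1 / 2 := by
        have e : x - m = 4 * (s.im - ρ.im) + 4 * (ρ.im - (m : ℝ) / 4) := by rw [hx]; ring
        rw [e]
        refine (abs_add_le _ _).trans ?_
        rw [abs_mul, abs_mul, abs_of_pos (show (0 : ℝ) < 4 by norm_num)]
        linarith
      linarith
    have h3 := Multiset.sum_le_card_nsmul _ _ h2
    rw [Multiset.card_map, nsmul_eq_mul] at h3
    refine h3.trans ?_
    have h4 := (hF T M Z hT hB N hNM m).trans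
      (mul_le_mul_of_nonneg_left (log_m hT (by rw [← hJZ]; exact hm)) hC.le)
    have hax := abs_nonneg (x - m)
    gcongr
  refine (Finset.sum_le_sum h1).trans ?_
  rw [← Finset.mul_sum, ← Finset.mul_sum]
  have h2 := sum_real_le J x
  have h3 : Real.log (2 * J + 1) ≤ 4 * Real.log (T + 2) := by
    have hJr : (J : ℝ) ≤ 4 * (T + 2) + 2 := by
      have e : (J : ℝ) = ((⌈4 * (T + 2)⌉ + 1 : ℤ) : ℝ) := by exact_mod_cast hJZ
      have := Int.ceil_lt_add_one (4 * (T + 2))
      rw [e]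
      push_cast
      linarith
    have h5 : 2 * (J : ℝ) + 1 ≤ (T + 2) ^ 4 := by
      have h6 : 2 * (J : ℝ) + 1 ≤ 8 * (T + 2) + 5 := by linarith
      have h7 : 9 ≤ (T + 2) ^ 2 := by nlinarith
      have h8 : 9 * (T + 2) ^ 2 ≤ (T + 2) ^ 4 := by nlinarith [sq_nonneg (T + 2)]
      nlinarith
    have h6 := Real.log_le_log (by positivity) h5
    rw [Real.log_pow] at h6
    exact_mod_cast h6
  have h4 : ∑ m ∈ Finset.Icc (-(J : ℤ)) J, (1 : ℝ) / (1 + |x - m|) ≤ 4 * 5 * Real.log (T + 2) := by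
    linarith
  calc C * (2 * Real.log (T + 2)) * (1670 * ∑ m ∈ Finset.Icc (-(J : ℤ)) J, (1 : ℝ) / (1 + |x - m|))
      ≤ C * (2 * Real.log (T + 2)) * (1670 * (4 * 5 * Real.log (T + 2))) := by gcongr
    _ = _ := by ring

end Pool.Agent.Helper67.KSZ.E4
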