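import Pool.Agent.Helper46.KSZ.St

/-! KSZ-E5 (MP_768c9c_nt): bounds for `Z'/Z` on the box. -/

set_option autoImplicit false
open Filter Topology MeasureTheory Complex
open scoped Classical

namespace Pool.Agent.Helper67.KSZ.E5

open Pool.Agent.Helper10.QRH Pool.Agent.Helper69.QRH Pool.Agent.Helper46.KSZ

theorem norm_sum_inv (N : Multiset ℂ) (s : ℂ) :
    ‖(N.map (fun ρ => 1 / (s - ρ))).sum‖ ≤ (N.map (fun ρ => 1 / ‖s - ρ‖)).sum := by
  induction N using Multiset.induction_on with
  | empty => simp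
  | cons a N ih =>
    rw [Multiset.map_cons, Multiset.sum_cons, Multiset.map_cons, Multiset.sum_cons]
    refine (norm_add_le _ _).trans ?_
    have : ‖1 / (s - a)‖ = 1 / ‖s - a‖ := by rw [norm_div, norm_one]
    rw [this]
    linarith

theorem log_facts {T : ℝ} (hT : 1 ≤ T) : 1 ≤ Real.log (T + 2) := by
  have h1 : Real.exp 1 ≤ T + 2 := by
    have := Real.exp_one_lt_d9
    linarith
  rw [← Real.log_exp 1]
  exact Real.log_le_log (Real.exp_pos 1) h1

theorem norm_L_two : ∃ C : ℝ, 0 ≤ C ∧ ∀ t : ℝ,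
    ‖LSeries (fun n => (ArithmeticFunction.vonMangoldt n : ℂ)) (2 + t * Complex.I)‖ ≤ C := by
  refine ⟨∑' n : ℕ, ‖LSeries.term (fun n => (ArithmeticFunction.vonMangoldt n : ℂ)) 2 n‖,
    tsum_nonneg fun n => norm_nonneg _, ?_⟩
  intro t
  have hsum : Summable (fun n : ℕ =>
      ‖LSeries.term (fun n => (ArithmeticFunction.vonMangoldt n : ℂ)) 2 n‖) :=
    (ArithmeticFunction.LSeriesSummable_vonMangoldt (s := 2) (by norm_num)).norm
  have he : ∀ n : ℕ, ‖LSeries.term (fun n => (ArithmeticFunction.vonMangoldt n : ℂ))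
      (2 + t * Complex.I) n‖ =
      ‖LSeries.term (fun n => (ArithmeticFunction.vonMangoldt n : ℂ)) 2 n‖ := by
    intro n
    rw [LSeries.norm_term_eq, LSeries.norm_term_eq]
    simp
  rw [LSeries]
  refine (norm_tsum_le_tsum_norm ?_).trans (le_of_eq (tsum_congr he))
  exact hsum.congr fun n => (he n).symm

theorem gBound (h1 : LocalLog) (h2 : FarSum) : GBound := by
  obtain ⟨C1, hC1, h1⟩ := h1
  obtain ⟨C2, hC2, h2⟩ := h2
  obtain ⟨C3, hC3, h3⟩ := norm_L_two
  refine ⟨C1 + C2 + C3 + 1, by positivity, ?_⟩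
  intro T M Z hT hB
  have hl := log_facts hT
  have hl2 : Real.log (T + 2) ≤ Real.log (T + 2) ^ 2 := by nlinarith
  have hsq : 1 ≤ Real.log (T + 2) ^ 2 := by nlinarith
  constructor
  · intro s hs1 hs2 hs3
    obtain ⟨hne, hb⟩ := h1 T M Z hT hB s hs1 hs2 hs3
    have hQ : Qp (far M s.im) s ≠ 0 := left_ne_zero_of_mul hne
    have hZ : Z s ≠ 0 := right_ne_zero_of_mul hne
    -- distances
    have hdist : ∀ ρ ∈ far M s.im, 0.003 ≤ ‖s - ρ‖ := by
      intro ρ hρ
      have hρ' := Multiset.mem_filter.1 hρ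
      obtain ⟨_, hr1, hr2, _⟩ := hB.mem ρ hρ'.1
      have hge : 1.4 ≤ ‖ρ - (2 + s.im * Complex.I)‖ := not_lt.1 hρ'.2
      by_cases hc : ρ.re ≤ 0.602
      · have := Complex.abs_re_le_norm (s - ρ)
        have h5 : (s - ρ).re = s.re - ρ.re := by simp
        rw [h5, abs_of_nonneg (by linarith)] at this
        linarith
      · push Not at hc
        have h6 : 1.4 ^ 2 ≤ ‖ρ - (2 + s.im * Complex.I)‖ ^ 2 :=
          pow_le_pow_left₀ (by norm_num) hge 2
        rw [Complex.sq_norm, Complex.normSq_apply] at h6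
        have e1 : (ρ - (2 + s.im * Complex.I)).re = ρ.re - 2 := by simp
        have e2 : (ρ - (2 + s.im * Complex.I)).im = ρ.im - s.im := by simp
        rw [e1, e2] at h6
        have h7 : 0.003 ^ 2 ≤ (ρ.im - s.im) * (ρ.im - s.im) := by nlinarith
        have h8 : 0.003 ^ 2 ≤ ‖s - ρ‖ ^ 2 := by
          rw [Complex.sq_norm, Complex.normSq_apply]
          have e3 : (s - ρ).im = s.im - ρ.im := by simp
          rw [e3]
          nlinarith [mul_self_nonneg (s - ρ).re]
        exact le_of_sq_le_sq h8 (norm_nonneg _)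
    have hsρ : ∀ ρ ∈ far M s.im, s ≠ ρ := by
      intro ρ hρ he
      have := hdist ρ hρ
      rw [he, sub_self, norm_zero] at this
      norm_num at this
    have e : logDeriv (fun z => Qp (far M s.im) z * Z z) s =
        logDeriv (Qp (far M s.im)) s + logDeriv Z s :=
      logDeriv_mul (f := Qp (far M s.im)) (g := Z) s hQ hZ ((Qp_differentiable _) s) (hB.diff s)
    have e2 : logDeriv Z s = logDeriv (fun z => Qp (far M s.im) z * Z z) s -
        ((far M s.im).map (fun ρ => 1 / (s - ρ))).sum := by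
      rw [e, logDeriv_Qp _ _ hsρ]; ring
    rw [e2]
    refine (norm_sub_le _ _).trans ?_
    have h5 := norm_sum_inv (far M s.im) s
    have h6 := h2 T M Z hT hB (far M s.im) (Multiset.filter_le _ _) s hdist
    have h7 : Real.log (|s.im| + 2) ≤ Real.log (T + 2) :=
      Real.log_le_log (by positivity) (by linarith)
    have h8 : C1 * Real.log (|s.im| + 2) ≤ C1 * Real.log (T + 2) ^ 2 := by
      apply mul_le_mul_of_nonneg_left _ hC1.le
      linarith
    have h9 : 0 ≤ (C3 + 1) * Real.log (T + 2) ^ 2 := by positivity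
    linarith
  · intro t
    set s : ℂ := 2 + t * Complex.I with hs
    have hre : s.re = 2 := by simp [hs]
    have hs1 : s ≠ 1 := by
      intro h
      rw [h] at hre
      norm_num at hre
    have hζ : riemannZeta s ≠ 0 := riemannZeta_ne_zero_of_one_lt_re (by rw [hre]; norm_num)
    have hEZ : EZ s ≠ 0 := by
      rw [EZ_eq hs1]
      exact mul_ne_zero (sub_ne_zero.2 hs1) hζ
    have hEZ' := hEZ
    rw [hB.eq s] at hEZ'
    have hQ : Qp M s ≠ 0 := left_ne_zero_of_mul hEZ'
    have hZ : Z s ≠ 0 := right_ne_zero_of_mul hEZ'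
    have hdist : ∀ ρ ∈ M, 1 ≤ ‖s - ρ‖ := by
      intro ρ hρ
      obtain ⟨_, _, hr2, _⟩ := hB.mem ρ hρ
      have := Complex.abs_re_le_norm (s - ρ)
      have h5 : (s - ρ).re = 2 - ρ.re := by rw [Complex.sub_re, hre]
      rw [h5, abs_of_nonneg (by linarith)] at this
      linarith
    have hsρ : ∀ ρ ∈ M, s ≠ ρ := by
      intro ρ hρ he
      have := hdist ρ hρ
      rw [he, sub_self, norm_zero] at this
      norm_num at this
    have hEZfun : EZ = fun z => Qp M z * Z z := funext hB.eq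
    have e : logDeriv EZ s = logDeriv (Qp M) s + logDeriv Z s := by
      rw [hEZfun]
      exact logDeriv_mul (f := Qp M) (g := Z) s hQ hZ ((Qp_differentiable _) s) (hB.diff s)
    have e2 : logDeriv Z s = 1 / (s - 1) -
        LSeries (fun n => (ArithmeticFunction.vonMangoldt n : ℂ)) s -
        (M.map (fun ρ => 1 / (s - ρ))).sum := by
      rw [logDeriv_Qp _ _ hsρ, logDeriv_EZ (by rw [hre]; norm_num)] at e
      rw [e]; ring
    rw [e2]
    refine (norm_sub_le _ _).trans ?_
    have b0 := norm_sub_le (1 / (s - 1))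
      (LSeries (fun n => (ArithmeticFunction.vonMangoldt n : ℂ)) s)
    have b1 : ‖1 / (s - 1)‖ ≤ 1 := by
      rw [norm_div, norm_one]
      have := Complex.abs_re_le_norm (s - 1)
      have h5 : (s - 1).re = 1 := by rw [Complex.sub_re, hre]; norm_num
      rw [h5, abs_one] at this
      rw [div_le_one (by linarith)]
      exact this
    have b2 := h3 t
    have b3 := norm_sum_inv M s
    have b4 := h2 T M Z hT hB M le_rfl s (fun ρ hρ => le_trans (by norm_num) (hdist ρ hρ))
    have b5 : (C3 + 1) * 1 ≤ (C3 + 1) * Real.log (T + 2) ^ 2 := by gcongr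
    have b6 : 0 ≤ C1 * Real.log (T + 2) ^ 2 := by positivity
    linarith

end Pool.Agent.Helper67.KSZ.E5
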