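import Pool.Agent.Helper67.KSZ.ZetaA

/-! KSZ (MP_768c9c_nt): growth of zeta (A5). -/

set_option autoImplicit false
open Filter Topology

namespace Pool.Agent.Helper67.KSZ

/-! ### optimal exponents for `N ≤ t` -/

theorem Ek (m : ℕ) : ∃ C : ℝ, 0 < C ∧ ∀ (N N1 : ℕ) (t : ℝ), 1 ≤ N → N < N1 → N1 ≤ 2 * N →
    (N : ℝ) ≤ t → ‖Sit t N N1‖ ≤ C * (t ^ (1 / (2 ^ (m + 2) - 2) : ℝ) *
      (N : ℝ) ^ (1 - (m + 2) * (1 / (2 ^ (m + 2) - 2)) : ℝ)) := by
  induction m with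
  | zero =>
    obtain ⟨C, hC, h⟩ := Sit_half
    refine ⟨2 * C, by positivity, ?_⟩
    intro N N1 t hN hN1 hN2 htN
    have hNr : (1 : ℝ) ≤ N := by exact_mod_cast hN
    have ht1 : 1 ≤ t := hNr.trans htN
    have ht0 : 0 < t := by linarith
    refine (h N N1 t hN hN1 hN2 ht0).trans ?_
    have e0 : (1 / (2 ^ (0 + 2) - 2) : ℝ) = 1 / 2 := by norm_num
    have e1 : (1 - (((0 : ℕ) : ℝ) + 2) * (1 / 2) : ℝ) = 0 := by norm_num
    rw [e0, e1, Real.rpow_zero, mul_one]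
    have h1 : (N : ℝ) / t ≤ t ^ (1 / 2 : ℝ) := by
      have h2 : (N : ℝ) / t ≤ 1 := by rw [div_le_one ht0]; exact htN
      exact h2.trans (Real.one_le_rpow ht1 (by norm_num))
    nlinarith
  | succ m ih =>
    obtain ⟨C1, hC1, h1⟩ := ih
    obtain ⟨C2, hC2, h2⟩ := A1 (m + 3) (by omega)
    set p : ℝ := 2 ^ m with hp
    have hp1 : 1 ≤ p := one_le_pow₀ (by norm_num)
    have hp0 : 0 < p := by linarith
    have h4 : (2 : ℝ) ^ (m + 2) = 4 * p := by rw [pow_add]; ring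
    have h8 : (2 : ℝ) ^ (m + 3) = 8 * p := by rw [pow_add]; ring
    have h8' : (2 : ℝ) ^ (m + 1 + 2) = 8 * p := by rw [← h8]
    rw [h4] at h1
    rw [h8] at h2
    rw [h8']
    set α' : ℝ := 1 / (4 * p - 2) with hα'
    set α : ℝ := 1 / (8 * p - 2) with hα
    have hq1 : 0 < 4 * p - 2 := by linarith
    have hq2 : 0 < 8 * p - 2 := by linarith
    have hα0 : 0 < α := by positivity
    have hα'0 : 0 < α' := by positivity
    have hαα' : α ≤ α' := by
      rw [hα, hα']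
      apply one_div_le_one_div_of_le hq1
      linarith
    set γ : ℝ := (m : ℝ) + 1 + 1 / (2 * p) with hγ
    have hm0 : (0 : ℝ) ≤ m := Nat.cast_nonneg m
    have hγ0 : 0 < γ := by positivity
    have i1 : 2 * ((m : ℝ) + 3) * α - 4 / (8 * p) = 2 * α * γ := by
      rw [hα, hγ]
      field_simp
      ring
    have i2 : ((m : ℝ) + 2) * α' - ((m : ℝ) + 3) * α = (α' - α) * γ := by
      have j1 : α' * (4 * p - 2) = 1 := by rw [hα']; exact one_div_mul_cancel hq1.ne'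
      have j2 : α * (8 * p - 2) = 1 := by rw [hα]; exact one_div_mul_cancel hq2.ne'
      have j3 : γ * (2 * p) = 2 * p * (m + 1) + 1 := by
        rw [hγ]; field_simp
      have j4 : 0 < (4 * p - 2) * (8 * p - 2) * (2 * p) := by positivity
      have j5 : (((m : ℝ) + 2) * α' - ((m : ℝ) + 3) * α - (α' - α) * γ) *
          ((4 * p - 2) * (8 * p - 2) * (2 * p)) = 0 := by
        linear_combination (((m : ℝ) + 2) * (8 * p - 2) * (2 * p) - γ * (2 * p) * (8 * p - 2)) * j1 -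
          (((m : ℝ) + 3) * (4 * p - 2) * (2 * p) - γ * (2 * p) * (4 * p - 2)) * j2 -
          ((8 * p - 2) - (4 * p - 2)) * j3
      have j6 := (mul_eq_zero.1 j5).resolve_right j4.ne'
      linarith
    refine ⟨C1 + 2 * C2, by positivity, ?_⟩
    intro N N1 t hN hN1 hN2 htN
    have hNr : (1 : ℝ) ≤ N := by exact_mod_cast hN
    have hN0 : (0 : ℝ) < N := by linarith
    have ht1 : 1 ≤ t := hNr.trans htN
    have ht0 : 0 < t := by linarith
    have ecast : (((m + 1 : ℕ) : ℝ) + 2) = (m : ℝ) + 3 := by push_cast; ring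
    rw [ecast]
    set R : ℝ := t ^ α * (N : ℝ) ^ (1 - ((m : ℝ) + 3) * α) with hR
    have hR0 : 0 < R := by positivity
    rcases le_total ((N : ℝ) ^ γ) t with h | h
    · refine (h2 N N1 t hN hN1 hN2 ht0).trans ?_
      have b1 : (N : ℝ) * (t / (N : ℝ) ^ (m + 3)) ^ α = R := by
        rw [hR, Real.div_rpow ht0.le (by positivity), ← Real.rpow_natCast, ← Real.rpow_mul hN0.le,
          Real.rpow_sub hN0, Real.rpow_one]
        push_cast
        ring
      have b2 : (N : ℝ) ^ (1 - 4 / (8 * p)) * ((N : ℝ) ^ (m + 3) / t) ^ α ≤ R := by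
        have e1 : (N : ℝ) ^ (1 - 4 / (8 * p)) * ((N : ℝ) ^ (m + 3) / t) ^ α =
            (N : ℝ) ^ (1 - ((m : ℝ) + 3) * α) * t ^ (-α) * ((N : ℝ) ^ γ) ^ (2 * α) := by
          rw [Real.div_rpow (by positivity) ht0.le, ← Real.rpow_natCast, ← Real.rpow_mul hN0.le,
            ← Real.rpow_mul hN0.le, Real.rpow_neg ht0.le, mul_right_comm, ← Real.rpow_add hN0,
            ← mul_div_assoc, ← Real.rpow_add hN0, div_eq_mul_inv]
          congr 2
          push_cast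
          linarith
        rw [e1, hR]
        have e2 : ((N : ℝ) ^ γ) ^ (2 * α) ≤ t ^ (2 * α) :=
          Real.rpow_le_rpow (by positivity) h (by positivity)
        calc (N : ℝ) ^ (1 - ((m : ℝ) + 3) * α) * t ^ (-α) * ((N : ℝ) ^ γ) ^ (2 * α) ≤
            (N : ℝ) ^ (1 - ((m : ℝ) + 3) * α) * t ^ (-α) * t ^ (2 * α) := by gcongr
          _ = t ^ α * (N : ℝ) ^ (1 - ((m : ℝ) + 3) * α) := by
            rw [mul_assoc, ← Real.rpow_add ht0, mul_comm]
            congr 2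
            ring
      calc C2 * ((N : ℝ) * (t / (N : ℝ) ^ (m + 3)) ^ α + (N : ℝ) ^ (1 - 4 / (8 * p)) *
            ((N : ℝ) ^ (m + 3) / t) ^ α) ≤ C2 * (R + R) := by rw [b1]; gcongr
        _ ≤ (C1 + 2 * C2) * R := by nlinarith
    · refine (h1 N N1 t hN hN1 hN2 htN).trans ?_
      have b1 : t ^ α' * (N : ℝ) ^ (1 - ((m : ℝ) + 2) * α') ≤ R := by
        have e1 : t ^ (α' - α) ≤ ((N : ℝ) ^ γ) ^ (α' - α) :=
          Real.rpow_le_rpow ht0.le h (by linarith)
        have e2 : t ^ α' = t ^ α * t ^ (α' - α) := by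
          rw [← Real.rpow_add ht0]; congr 1; ring
        have e3 : ((N : ℝ) ^ γ) ^ (α' - α) * (N : ℝ) ^ (1 - ((m : ℝ) + 2) * α') =
            (N : ℝ) ^ (1 - ((m : ℝ) + 3) * α) := by
          rw [← Real.rpow_mul hN0.le, ← Real.rpow_add hN0]
          congr 1
          linarith
        rw [e2, hR, ← e3]
        calc t ^ α * t ^ (α' - α) * (N : ℝ) ^ (1 - ((m : ℝ) + 2) * α') ≤
            t ^ α * ((N : ℝ) ^ γ) ^ (α' - α) * (N : ℝ) ^ (1 - ((m : ℝ) + 2) * α') := by gcongr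
          _ = _ := by ring
      calc C1 * (t ^ α' * (N : ℝ) ^ (1 - ((m : ℝ) + 2) * α')) ≤ C1 * R := by gcongr
        _ ≤ (C1 + 2 * C2) * R := by nlinarith

/-! ### from blocks to zeta -/

theorem zeta_of_blocks : ∃ C : ℝ, 0 < C ∧ ∀ σ t B : ℝ, 1 / 2 ≤ σ → σ ≤ 2 → 2 ≤ t → 1 ≤ B →
    (∀ N N1 : ℕ, 1 ≤ N → N < N1 → N1 ≤ 2 * N → (N1 : ℝ) ≤ t ^ 2 →
      ‖∑ n ∈ Finset.Ioc N N1, (n : ℂ) ^ (-((σ : ℂ) + (t : ℂ) * Complex.I))‖ ≤ B) →
    ‖riemannZeta ((σ : ℂ) + (t : ℂ) * Complex.I)‖ ≤ C * B * Real.log t := by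
  obtain ⟨C, hC, h⟩ := A4
  refine ⟨2 * C + 8, by positivity, ?_⟩
  intro σ t B hσ hσ2 ht hB hblk
  have h1 := h σ t hσ hσ2 ht
  set s : ℂ := (σ : ℂ) + (t : ℂ) * Complex.I with hs
  set M := ⌊t ^ 2⌋₊ with hM
  have hMle : (M : ℝ) ≤ t ^ 2 := Nat.floor_le (by positivity)
  have hM1 : 1 ≤ M := by
    apply Nat.one_le_iff_ne_zero.2
    intro h0
    rw [hM, Nat.floor_eq_zero] at h0
    nlinarith
  have hM0 : (0 : ℝ) < M := by exact_mod_cast hM1
  have h2 := dyadic (fun n => (n : ℂ) ^ (-s)) B M hM1 (by linarith) (by simpa using hB)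
    (fun N N1 a b c d => hblk N N1 a b c (le_trans (by exact_mod_cast d) hMle))
  have hlt : Real.log 2 ≤ Real.log t := Real.log_le_log (by norm_num) ht
  have hl2 := Real.log_two_gt_d9
  have hlM : Real.log M ≤ 2 * Real.log t := by
    have := Real.log_le_log hM0 hMle
    rw [Real.log_pow] at this
    exact_mod_cast this
  have h3 : ‖riemannZeta s‖ ≤ C + (2 * Real.log M + 2) * B := by
    have e : riemannZeta s = (riemannZeta s - ∑ n ∈ Finset.Icc 1 M, (n : ℂ) ^ (-s)) +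
        ∑ n ∈ Finset.Icc 1 M, (n : ℂ) ^ (-s) := by ring
    rw [e]
    exact (norm_add_le _ _).trans (add_le_add h1 h2)
  have hlt0 : 1 / 2 ≤ Real.log t := by linarith
  have h4 : C ≤ 2 * C * B * Real.log t := by
    have : 1 / 2 ≤ B * Real.log t := by nlinarith
    nlinarith
  have h5 : (2 * Real.log M + 2) * B ≤ 8 * B * Real.log t := by
    have : 2 * Real.log M + 2 ≤ 8 * Real.log t := by linarith
    have := mul_le_mul_of_nonneg_right this (show 0 ≤ B by linarith)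
    linarith
  linarith

/-- blocks beyond `t` -/
theorem block_large : ∃ C : ℝ, 1 ≤ C ∧ ∀ (σ t : ℝ) (N N1 : ℕ), 1 / 2 ≤ σ → 1 ≤ t → t ≤ N →
    N < N1 → N1 ≤ 2 * N → (N1 : ℝ) ≤ t ^ 2 →
      ‖∑ n ∈ Finset.Ioc N N1, (n : ℂ) ^ (-((σ : ℂ) + (t : ℂ) * Complex.I))‖ ≤ C := by
  obtain ⟨C, hC, h⟩ := A2'
  refine ⟨C + 1, by linarith, ?_⟩
  intro σ t N N1 hσ ht htN hN1 hN2 hN3
  have hNr : (1 : ℝ) ≤ N := ht.trans htN
  have hN : 1 ≤ N := by exact_mod_cast hNr
  have ht0 : 0 < t := by linarith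
  refine (h N N1 σ t hN hN1 hN2 ht0 htN (by linarith)).trans ?_
  have h1 : (N : ℝ) ^ (1 - σ) / t ≤ 1 := by
    rw [div_le_one ht0]
    have h2 : (N : ℝ) ^ (1 - σ) ≤ (N : ℝ) ^ (1 / 2 : ℝ) :=
      Real.rpow_le_rpow_of_exponent_le hNr (by linarith)
    have h3 : (N : ℝ) ≤ t ^ 2 := by
      have : (N : ℝ) ≤ N1 := by exact_mod_cast hN1.le
      linarith
    have h4 : (N : ℝ) ^ (1 / 2 : ℝ) ≤ t := by
      rw [← Real.sqrt_eq_rpow]
      exact Real.sqrt_le_iff.2 ⟨ht0.le, h3⟩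
    linarith
  nlinarith

/-- A5 (a): the critical line, Weyl's exponent -/
theorem A5a : ∃ C : ℝ, 0 < C ∧ ∀ t : ℝ, 2 ≤ t →
    ‖riemannZeta ((1 / 2 : ℂ) + (t : ℂ) * Complex.I)‖ ≤ C * t ^ (1 / 6 : ℝ) * Real.log t := by
  obtain ⟨C0, hC0, h0⟩ := zeta_of_blocks
  obtain ⟨C1, hC1, h1⟩ := block_large
  obtain ⟨C2, hC2, h2⟩ := Ek 1
  refine ⟨C0 * (C1 + C2), by positivity, ?_⟩
  intro t ht
  have ht0 : 0 < t := by linarith
  have ht1 : 1 ≤ t := by linarith
  have htp : 1 ≤ t ^ (1 / 6 : ℝ) := Real.one_le_rpow ht1 (by norm_num)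
  have h3 := h0 (1 / 2) t ((C1 + C2) * t ^ (1 / 6 : ℝ)) le_rfl (by norm_num) ht (by nlinarith) ?_
  · push_cast at h3
    refine h3.trans (le_of_eq (by ring))
  · intro N N1 hN hN1 hN2 hN3
    have hNr : (1 : ℝ) ≤ N := by exact_mod_cast hN
    have hN0 : (0 : ℝ) < N := by linarith
    rcases le_total (N : ℝ) t with h | h
    · refine (abel_pow (B := C2 * (t ^ (1 / 6 : ℝ) * (N : ℝ) ^ (1 / 2 : ℝ))) hN (by norm_num)
        (by positivity) ?_).trans ?_
      · intro N' a b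
        have h4 := h2 N N' t hN a (by omega) h
        have e1 : (1 / (2 ^ (1 + 2) - 2) : ℝ) = 1 / 6 := by norm_num
        rw [e1] at h4
        have e2 : (1 - (((1 : ℕ) : ℝ) + 2) * (1 / 6) : ℝ) = 1 / 2 := by norm_num
        rw [e2] at h4
        exact h4
      · have e3 : (N : ℝ) ^ (-(1 / 2) : ℝ) * (C2 * (t ^ (1 / 6 : ℝ) * (N : ℝ) ^ (1 / 2 : ℝ))) =
            C2 * t ^ (1 / 6 : ℝ) := by
          have : (N : ℝ) ^ (-(1 / 2) : ℝ) * (N : ℝ) ^ (1 / 2 : ℝ) = 1 := by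
            rw [← Real.rpow_add hN0]; simp
          linear_combination (C2 * t ^ (1 / 6 : ℝ)) * this
        rw [e3]
        nlinarith
    · refine (h1 (1 / 2) t N N1 le_rfl ht1 h hN1 hN2 hN3).trans ?_
      nlinarith

/-- A5 (b): near the line 1 -/
theorem A5b : ∃ C : ℝ, 0 < C ∧ ∀ σ t : ℝ, 2 ≤ t → 5 / 7 ≤ σ → σ ≤ 1 →
    ‖riemannZeta ((σ : ℂ) + (t : ℂ) * Complex.I)‖ ≤ C * t ^ ((1 - σ) / 4) * Real.log t := by
  obtain ⟨C0, hC0, h0⟩ := zeta_of_blocks
  obtain ⟨C1, hC1, h1⟩ := block_large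
  obtain ⟨C2, hC2, h2⟩ := Ek 2
  refine ⟨C0 * (C1 + C2 + 1), by positivity, ?_⟩
  intro σ t ht hσ hσ1
  have ht0 : 0 < t := by linarith
  have ht1 : 1 ≤ t := by linarith
  have htp : 1 ≤ t ^ ((1 - σ) / 4) := Real.one_le_rpow ht1 (by linarith)
  have h3 := h0 σ t ((C1 + C2 + 1) * t ^ ((1 - σ) / 4)) (by linarith) (by linarith) ht (by nlinarith) ?_
  · refine h3.trans (le_of_eq (by ring))
  · intro N N1 hN hN1 hN2 hN3
    have hNr : (1 : ℝ) ≤ N := by exact_mod_cast hN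
    have hN0 : (0 : ℝ) < N := by linarith
    rcases le_total (N : ℝ) t with h | h
    · rcases le_total (N : ℝ) (t ^ (1 / 4 : ℝ)) with h' | h'
      · refine (abel_pow (B := N) hN (by linarith) (by positivity) ?_).trans ?_
        · intro N' a b
          exact norm_Sit_le t (by omega)
        · have e3 : (N : ℝ) ^ (-σ) * N = (N : ℝ) ^ (1 - σ) := by
            rw [show (1 - σ) = -σ + 1 by ring, Real.rpow_add hN0, Real.rpow_one]
          rw [e3]
          have e4 : (N : ℝ) ^ (1 - σ) ≤ t ^ ((1 - σ) / 4) := by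
            calc (N : ℝ) ^ (1 - σ) ≤ (t ^ (1 / 4 : ℝ)) ^ (1 - σ) :=
                  Real.rpow_le_rpow hN0.le h' (by linarith)
              _ = t ^ ((1 - σ) / 4) := by
                  rw [← Real.rpow_mul ht0.le]; congr 1; ring
          nlinarith
      · refine (abel_pow (B := C2 * (t ^ (1 / 14 : ℝ) * (N : ℝ) ^ (5 / 7 : ℝ))) hN (by linarith)
          (by positivity) ?_).trans ?_
        · intro N' a b
          have h4 := h2 N N' t hN a (by omega) h
          have e1 : (1 / (2 ^ (2 + 2) - 2) : ℝ) = 1 / 14 := by norm_num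
          rw [e1] at h4
          have e2 : (1 - (((2 : ℕ) : ℝ) + 2) * (1 / 14) : ℝ) = 5 / 7 := by norm_num
          rw [e2] at h4
          exact h4
        · have e3 : (N : ℝ) ^ (-σ) * (C2 * (t ^ (1 / 14 : ℝ) * (N : ℝ) ^ (5 / 7 : ℝ))) =
              C2 * (t ^ (1 / 14 : ℝ) * (N : ℝ) ^ (5 / 7 - σ)) := by
            have : (N : ℝ) ^ (5 / 7 - σ) = (N : ℝ) ^ (-σ) * (N : ℝ) ^ (5 / 7 : ℝ) := by
              rw [← Real.rpow_add hN0]; congr 1; ring
            rw [this]; ring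
          rw [e3]
          have e4 : t ^ (1 / 14 : ℝ) * (N : ℝ) ^ (5 / 7 - σ) ≤ t ^ ((1 - σ) / 4) := by
            calc t ^ (1 / 14 : ℝ) * (N : ℝ) ^ (5 / 7 - σ) ≤
                t ^ (1 / 14 : ℝ) * (t ^ (1 / 4 : ℝ)) ^ (5 / 7 - σ) := by
                  apply mul_le_mul_of_nonneg_left _ (by positivity)
                  exact Real.rpow_le_rpow_of_nonpos (by positivity) h' (by linarith)
              _ = t ^ ((1 - σ) / 4) := by
                  rw [← Real.rpow_mul ht0.le, ← Real.rpow_add ht0]; congr 1; ring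
          calc C2 * (t ^ (1 / 14 : ℝ) * (N : ℝ) ^ (5 / 7 - σ)) ≤ C2 * t ^ ((1 - σ) / 4) := by gcongr
            _ ≤ _ := by nlinarith
    · refine (h1 σ t N N1 (by linarith) ht1 h hN1 hN2 hN3).trans ?_
      nlinarith

/-- A5 (c): right of the line 1 -/
theorem A5c : ∃ C : ℝ, 0 < C ∧ ∀ σ t : ℝ, 2 ≤ t → 1 ≤ σ →
    ‖riemannZeta ((σ : ℂ) + (t : ℂ) * Complex.I)‖ ≤ C * Real.log t := by
  obtain ⟨C0, hC0, h0⟩ := zeta_of_blocks
  set Z : ℝ := ∑' n : ℕ, ((n : ℝ) + 1) ^ (-2 : ℝ) with hZ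
  have hZs : Summable (fun n : ℕ => ((n : ℝ) + 1) ^ (-2 : ℝ)) :=
    Pool.Agent.Helper69.QRH.summable_rpow_aux (by norm_num)
  have hZ0 : 0 ≤ Z := tsum_nonneg fun n => by positivity
  refine ⟨C0 + 2 * Z, by positivity, ?_⟩
  intro σ t ht hσ
  have ht0 : 0 < t := by linarith
  have hlt : Real.log 2 ≤ Real.log t := Real.log_le_log (by norm_num) ht
  have hl2 := Real.log_two_gt_d9
  rcases le_total σ 2 with h | h
  · have h3 := h0 σ t 1 (by linarith) h ht le_rfl ?_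
    · rw [mul_one] at h3
      nlinarith
    · intro N N1 hN hN1 hN2 hN3
      have hNr : (1 : ℝ) ≤ N := by exact_mod_cast hN
      have hN0 : (0 : ℝ) < N := by linarith
      refine (abel_pow (B := N) hN (by linarith) (by positivity) ?_).trans ?_
      · intro N' a b
        exact norm_Sit_le t (by omega)
      · have e3 : (N : ℝ) ^ (-σ) * N = (N : ℝ) ^ (1 - σ) := by
          rw [show (1 - σ) = -σ + 1 by ring, Real.rpow_add hN0, Real.rpow_one]
        rw [e3]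
        exact Real.rpow_le_one_of_one_le_of_nonpos hNr (by linarith)
  · set s : ℂ := (σ : ℂ) + (t : ℂ) * Complex.I with hs
    have hre : s.re = σ := by simp [hs]
    have h5 : ‖riemannZeta s‖ ≤ Z := by
      rw [zeta_eq_tsum_one_div_nat_add_one_cpow (by rw [hre]; linarith)]
      refine tsum_of_norm_bounded hZs.hasSum fun n => ?_
      have e1 : ((n : ℂ) + 1) = (((n : ℝ) + 1 : ℝ) : ℂ) := by push_cast; ring
      have hn : (0 : ℝ) ≤ n := Nat.cast_nonneg n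
      rw [norm_div, norm_one, e1, Complex.norm_cpow_eq_rpow_re_of_pos (by positivity), hre,
        one_div, ← Real.rpow_neg (by positivity)]
      exact Real.rpow_le_rpow_of_exponent_le (by linarith) (by linarith)
    nlinarith

end Pool.Agent.Helper67.KSZ
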