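import Pool.Agent.Helper67.KSZ.ExpSum

/-! KSZ (MP_768c9c_nt): partial summation, the classical inputs A2 and A3. -/

set_option autoImplicit false
open scoped ComplexConjugate

namespace Pool.Agent.Helper67.KSZ

/-! ### Abel's inequality -/

theorem abel_aux (b : ℕ → ℝ) (z : ℕ → ℂ) (B : ℝ) (M : ℕ) (hb : ∀ n, b (n + 1) ≤ b n)
    (hP : ∀ m ≤ M, ‖∑ n ∈ Finset.range m, z n‖ ≤ B) :
    ‖∑ n ∈ Finset.range M, (b n : ℂ) * z n - b M * ∑ n ∈ Finset.range M, z n‖ ≤ (b 0 - b M) * B := by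
  induction M with
  | zero => simp
  | succ M ih =>
    have h1 := ih (fun m hm => hP m (by omega))
    have e : ∑ n ∈ Finset.range (M + 1), (b n : ℂ) * z n -
        b (M + 1) * ∑ n ∈ Finset.range (M + 1), z n =
        (∑ n ∈ Finset.range M, (b n : ℂ) * z n - b M * ∑ n ∈ Finset.range M, z n) +
          ((b M - b (M + 1) : ℝ) : ℂ) * ∑ n ∈ Finset.range (M + 1), z n := by
      rw [Finset.sum_range_succ, Finset.sum_range_succ]
      push_cast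
      ring
    rw [e]
    refine (norm_add_le _ _).trans ?_
    rw [norm_mul, Complex.norm_real, Real.norm_of_nonneg (by linarith [hb M])]
    have h2 := hP (M + 1) le_rfl
    have h3 := mul_le_mul_of_nonneg_left h2 (show 0 ≤ b M - b (M + 1) by linarith [hb M])
    linarith

theorem abel_range (b : ℕ → ℝ) (z : ℕ → ℂ) (B : ℝ) (M : ℕ) (hb : ∀ n, b (n + 1) ≤ b n)
    (hb0 : ∀ n, 0 ≤ b n) (hP : ∀ m ≤ M, ‖∑ n ∈ Finset.range m, z n‖ ≤ B) :
    ‖∑ n ∈ Finset.range M, (b n : ℂ) * z n‖ ≤ b 0 * B := by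
  have h1 := abel_aux b z B M hb hP
  have e : ∑ n ∈ Finset.range M, (b n : ℂ) * z n =
      (∑ n ∈ Finset.range M, (b n : ℂ) * z n - b M * ∑ n ∈ Finset.range M, z n) +
        (b M : ℂ) * ∑ n ∈ Finset.range M, z n := by ring
  rw [e]
  refine (norm_add_le _ _).trans ?_
  rw [norm_mul, Complex.norm_real, Real.norm_of_nonneg (hb0 M)]
  have h3 := mul_le_mul_of_nonneg_left (hP M le_rfl) (hb0 M)
  linarith

/-- Abel's inequality on `(N, N1]` -/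
theorem abel_Ioc (w : ℕ → ℝ) (z : ℕ → ℂ) (B : ℝ) (N N1 : ℕ) (hw : ∀ n, N < n → w (n + 1) ≤ w n)
    (hw0 : ∀ n, N < n → 0 ≤ w n) (hB : 0 ≤ B)
    (hP : ∀ N', N < N' → N' ≤ N1 → ‖∑ n ∈ Finset.Ioc N N', z n‖ ≤ B) :
    ‖∑ n ∈ Finset.Ioc N N1, (w n : ℂ) * z n‖ ≤ w (N + 1) * B := by
  rw [sum_Ioc_eq]
  refine (abel_range (fun i => w (N + 1 + i)) (fun i => z (N + 1 + i)) B (N1 - N)
    (fun n => by
      have e : N + 1 + (n + 1) = N + 1 + n + 1 := by ring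
      simp only [e]
      exact hw (N + 1 + n) (by omega)) (fun n => hw0 _ (by omega)) ?_).trans (by simp)
  intro m hm
  rcases Nat.eq_zero_or_pos m with h | h
  · subst h; simpa using hB
  · have := hP (N + m) (by omega) (by omega)
    rw [sum_Ioc_eq, Nat.add_sub_cancel_left] at this
    exact this

theorem pow_split {n : ℕ} (hn : 0 < n) (κ t : ℝ) :
    (n : ℂ) ^ (-((κ : ℂ) + (t : ℂ) * Complex.I)) =
      (((n : ℝ) ^ (-κ) : ℝ) : ℂ) * (n : ℂ) ^ (-((t : ℂ) * Complex.I)) := by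
  have hn' : (n : ℂ) ≠ 0 := by exact_mod_cast hn.ne'
  rw [neg_add, Complex.cpow_add _ _ hn', Complex.ofReal_cpow (Nat.cast_nonneg n)]
  push_cast
  rfl

/-- partial summation for `n^(-κ-it)` -/
theorem abel_pow {N N1 : ℕ} {κ t B : ℝ} (hN : 1 ≤ N) (hκ : 0 ≤ κ) (hB : 0 ≤ B)
    (hP : ∀ N', N < N' → N' ≤ N1 → ‖Sit t N N'‖ ≤ B) :
    ‖∑ n ∈ Finset.Ioc N N1, (n : ℂ) ^ (-((κ : ℂ) + (t : ℂ) * Complex.I))‖ ≤ (N : ℝ) ^ (-κ) * B := by
  have hN0 : (0 : ℝ) < N := by exact_mod_cast hN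
  have e : ∑ n ∈ Finset.Ioc N N1, (n : ℂ) ^ (-((κ : ℂ) + (t : ℂ) * Complex.I)) =
      ∑ n ∈ Finset.Ioc N N1, (((n : ℝ) ^ (-κ) : ℝ) : ℂ) * (n : ℂ) ^ (-((t : ℂ) * Complex.I)) := by
    apply Finset.sum_congr rfl
    intro n hn
    rw [pow_split (by rw [Finset.mem_Ioc] at hn; omega)]
  rw [e]
  refine (abel_Ioc (fun n => (n : ℝ) ^ (-κ)) (fun n => (n : ℂ) ^ (-((t : ℂ) * Complex.I))) B N N1
    (fun n hn => ?_) (fun n _ => by positivity) hB hP).trans ?_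
  · have hn0 : (0 : ℝ) < n := by exact_mod_cast (by omega : 0 < n)
    exact Real.rpow_le_rpow_of_nonpos hn0 (by push_cast; linarith) (by linarith)
  · apply mul_le_mul_of_nonneg_right _ hB
    exact Real.rpow_le_rpow_of_nonpos hN0 (by push_cast; linarith) (by linarith)

/-! ### A2 -/

theorem Sit_two : ∃ C : ℝ, 0 < C ∧ ∀ (N N1 : ℕ) (t : ℝ), 1 ≤ N → N < N1 → N1 ≤ 2 * N → 0 < t →
    t ≤ N → ‖Sit t N N1‖ ≤ C * (N / t) :=
  ⟨12 * Real.pi, by have := Real.pi_pos; positivity, fun N N1 t h1 h2 h3 h4 h5 =>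
    KLsum h1 h2 h3 h4 h5⟩

theorem Sit_half : ∃ C : ℝ, 0 < C ∧ ∀ (N N1 : ℕ) (t : ℝ), 1 ≤ N → N < N1 → N1 ≤ 2 * N → 0 < t →
    ‖Sit t N N1‖ ≤ C * (N / t + t ^ (1 / 2 : ℝ)) := by
  obtain ⟨C1, hC1, h1⟩ := A1 2 le_rfl
  obtain ⟨C2, hC2, h2⟩ := Sit_two
  refine ⟨2 * C1 + C2, by positivity, ?_⟩
  intro N N1 t hN hN1 hN2 ht
  have hN0 : (0 : ℝ) < N := by exact_mod_cast hN
  have hNt : 0 < N / t := by positivity
  have hth : 0 < t ^ (1 / 2 : ℝ) := by positivity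
  rcases le_total t N with h | h
  · refine (h2 N N1 t hN hN1 hN2 ht h).trans ?_
    nlinarith
  · refine (h1 N N1 t hN hN1 hN2 ht).trans ?_
    have e0 : (1 / (2 ^ 2 - 2) : ℝ) = 1 / 2 := by norm_num
    have e1 : (1 - 4 / 2 ^ 2 : ℝ) = 0 := by norm_num
    rw [e0, e1, Real.rpow_zero, one_mul]
    have e2 : (N : ℝ) * (t / (N : ℝ) ^ 2) ^ (1 / 2 : ℝ) = t ^ (1 / 2 : ℝ) := by
      rw [Real.div_rpow ht.le (by positivity), ← Real.sqrt_eq_rpow ((N : ℝ) ^ 2),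
        Real.sqrt_sq hN0.le]
      field_simp
    have e3 : ((N : ℝ) ^ 2 / t) ^ (1 / 2 : ℝ) ≤ t ^ (1 / 2 : ℝ) := by
      apply Real.rpow_le_rpow (by positivity) _ (by norm_num)
      rw [div_le_iff₀ ht]
      nlinarith
    rw [e2]
    nlinarith

/-- A2, first form -/
theorem A2 : ∃ C : ℝ, 0 < C ∧ ∀ (N N1 : ℕ) (κ t : ℝ), 1 ≤ N → N < N1 → N1 ≤ 2 * N → 0 < t →
    0 ≤ κ → ‖∑ n ∈ Finset.Ioc N N1, (n : ℂ) ^ (-((κ : ℂ) + (t : ℂ) * Complex.I))‖ ≤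
      C * (N : ℝ) ^ (-κ) * (N / t + t ^ (1 / 2 : ℝ)) := by
  obtain ⟨C, hC, h⟩ := Sit_half
  refine ⟨C, hC, ?_⟩
  intro N N1 κ t hN hN1 hN2 ht hκ
  have hN0 : (0 : ℝ) < N := by exact_mod_cast hN
  refine (abel_pow (B := C * (N / t + t ^ (1 / 2 : ℝ))) hN hκ (by positivity) ?_).trans
    (le_of_eq (by ring))
  intro N' h1 h2
  exact h N N' t hN h1 (by omega) ht

/-- A2, second form (`t ≤ N`) -/
theorem A2' : ∃ C : ℝ, 0 < C ∧ ∀ (N N1 : ℕ) (κ t : ℝ), 1 ≤ N → N < N1 → N1 ≤ 2 * N → 0 < t →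
    t ≤ N → 0 ≤ κ → ‖∑ n ∈ Finset.Ioc N N1, (n : ℂ) ^ (-((κ : ℂ) + (t : ℂ) * Complex.I))‖ ≤
      C * ((N : ℝ) ^ (1 - κ) / t) := by
  obtain ⟨C, hC, h⟩ := Sit_two
  refine ⟨C, hC, ?_⟩
  intro N N1 κ t hN hN1 hN2 ht htN hκ
  have hN0 : (0 : ℝ) < N := by exact_mod_cast hN
  refine (abel_pow (B := C * (N / t)) hN hκ (by positivity) ?_).trans (le_of_eq ?_)
  · intro N' h1 h2
    exact h N N' t hN h1 (by omega) ht htN
  · rw [Real.rpow_sub hN0, Real.rpow_one, Real.rpow_neg hN0.le]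
    ring

/-! ### A3 -/

theorem A3_aux (m : ℕ) : ∃ c C : ℝ, 0 < c ∧ 0 < C ∧ ∀ (N N1 : ℕ) (t : ℝ), 1 ≤ N → N < N1 →
    N1 ≤ 2 * N → (N : ℝ) ≤ t → t ≤ (N : ℝ) ^ (m + 1) → ‖Sit t N N1‖ ≤ C * (N : ℝ) ^ (1 - c) := by
  induction m with
  | zero =>
    obtain ⟨C, hC, h⟩ := Sit_two
    refine ⟨1, C, one_pos, hC, ?_⟩
    intro N N1 t hN hN1 hN2 h1 h2
    have hN0 : (0 : ℝ) < N := by exact_mod_cast hN
    have ht : t = N := le_antisymm (by simpa using h2) h1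
    refine (h N N1 t hN hN1 hN2 (by linarith) ht.le).trans ?_
    rw [ht, div_self hN0.ne', sub_self, Real.rpow_zero]
  | succ m ih =>
    obtain ⟨c1, C1, hc1, hC1, h1⟩ := ih
    obtain ⟨C2, hC2, h2⟩ := A1 (m + 3) (by omega)
    set α : ℝ := 1 / (2 ^ (m + 3) - 2) with hα
    set β : ℝ := 4 / 2 ^ (m + 3) with hβ
    have hp : (1 : ℝ) ≤ 2 ^ m := one_le_pow₀ (by norm_num)
    have h8 : (2 : ℝ) ^ (m + 3) = 8 * 2 ^ m := by rw [pow_add]; ring
    have hα0 : 0 < α := by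
      rw [hα, h8]; apply div_pos one_pos; linarith
    have hβα : 0 < β - 2 * α := by
      rw [hα, hβ, h8, sub_pos, mul_one_div, div_lt_div_iff₀ (by linarith) (by positivity)]
      linarith
    refine ⟨min c1 (min α (β - 2 * α)), C1 + 2 * C2, by positivity, by positivity, ?_⟩
    intro N N1 t hN hN1 hN2 htN htN2
    have hNr : (1 : ℝ) ≤ N := by exact_mod_cast hN
    have hN0 : (0 : ℝ) < N := by linarith
    have ht : 0 < t := by linarith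
    set c := min c1 (min α (β - 2 * α)) with hc
    have hcc1 : c ≤ c1 := min_le_left _ _
    have hcα : c ≤ α := (min_le_right _ _).trans (min_le_left _ _)
    have hcβ : c ≤ β - 2 * α := (min_le_right _ _).trans (min_le_right _ _)
    have hpos : 0 < (N : ℝ) ^ (1 - c) := by positivity
    rcases le_total t ((N : ℝ) ^ (m + 1)) with h | h
    · refine (h1 N N1 t hN hN1 hN2 htN h).trans ?_
      have : (N : ℝ) ^ (1 - c1) ≤ (N : ℝ) ^ (1 - c) :=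
        Real.rpow_le_rpow_of_exponent_le hNr (by linarith)
      calc C1 * (N : ℝ) ^ (1 - c1) ≤ C1 * (N : ℝ) ^ (1 - c) := by gcongr
        _ ≤ _ := by nlinarith
    · refine (h2 N N1 t hN hN1 hN2 ht).trans ?_
      have b1 : (N : ℝ) * (t / (N : ℝ) ^ (m + 3)) ^ α ≤ (N : ℝ) ^ (1 - c) := by
        have e1 : t / (N : ℝ) ^ (m + 3) ≤ (N : ℝ) ^ (-1 : ℝ) := by
          rw [div_le_iff₀ (by positivity), Real.rpow_neg_one]
          calc t ≤ (N : ℝ) ^ (m + 1 + 1) := htN2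
            _ = (N : ℝ)⁻¹ * (N : ℝ) ^ (m + 3) := by
              rw [show m + 3 = (m + 1 + 1) + 1 by ring, pow_succ (N : ℝ) (m + 1 + 1)]
              field_simp
        calc (N : ℝ) * (t / (N : ℝ) ^ (m + 3)) ^ α ≤ N * ((N : ℝ) ^ (-1 : ℝ)) ^ α := by
              apply mul_le_mul_of_nonneg_left _ hN0.le
              exact Real.rpow_le_rpow (by positivity) e1 hα0.le
          _ = (N : ℝ) ^ (1 - α) := by
              rw [← Real.rpow_mul hN0.le, sub_eq_add_neg, Real.rpow_add hN0, Real.rpow_one]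
              congr 2
              ring
          _ ≤ (N : ℝ) ^ (1 - c) := Real.rpow_le_rpow_of_exponent_le hNr (by linarith)
      have b2 : (N : ℝ) ^ (1 - β) * ((N : ℝ) ^ (m + 3) / t) ^ α ≤ (N : ℝ) ^ (1 - c) := by
        have e1 : (N : ℝ) ^ (m + 3) / t ≤ (N : ℝ) ^ (2 : ℝ) := by
          rw [div_le_iff₀ ht, Real.rpow_two]
          calc (N : ℝ) ^ (m + 3) = (N : ℝ) ^ 2 * (N : ℝ) ^ (m + 1) := by ring
            _ ≤ (N : ℝ) ^ 2 * t := by gcongr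
        calc (N : ℝ) ^ (1 - β) * ((N : ℝ) ^ (m + 3) / t) ^ α ≤
            (N : ℝ) ^ (1 - β) * ((N : ℝ) ^ (2 : ℝ)) ^ α := by
              apply mul_le_mul_of_nonneg_left _ (by positivity)
              exact Real.rpow_le_rpow (by positivity) e1 hα0.le
          _ = (N : ℝ) ^ (1 - (β - 2 * α)) := by
              rw [← Real.rpow_mul hN0.le, ← Real.rpow_add hN0]
              congr 1
              ring
          _ ≤ (N : ℝ) ^ (1 - c) := Real.rpow_le_rpow_of_exponent_le hNr (by linarith)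
      calc C2 * ((N : ℝ) * (t / (N : ℝ) ^ (m + 3)) ^ α + (N : ℝ) ^ (1 - β) *
            ((N : ℝ) ^ (m + 3) / t) ^ α) ≤ C2 * ((N : ℝ) ^ (1 - c) + (N : ℝ) ^ (1 - c)) := by gcongr
        _ ≤ _ := by nlinarith

/-- A3: the uniform saving -/
theorem A3 (A : ℝ) (hA : 1 ≤ A) : ∃ c C : ℝ, 0 < c ∧ 0 < C ∧ ∀ (N N1 : ℕ) (t : ℝ), 1 ≤ N →
    N < N1 → N1 ≤ 2 * N → (N : ℝ) ^ (1 / A) ≤ t → t ≤ (N : ℝ) ^ A →
    ‖∑ n ∈ Finset.Ioc N N1, (n : ℂ) ^ (-((t : ℂ) * Complex.I))‖ ≤ C * (N : ℝ) ^ (1 - c) := by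
  obtain ⟨c1, C1, hc1, hC1, h1⟩ := A3_aux ⌈A⌉₊
  obtain ⟨C2, hC2, h2⟩ := Sit_two
  have hA0 : 0 < A := by linarith
  refine ⟨min c1 (1 / A), C1 + C2, by positivity, by positivity, ?_⟩
  intro N N1 t hN hN1 hN2 h3 h4
  have hNr : (1 : ℝ) ≤ N := by exact_mod_cast hN
  have hN0 : (0 : ℝ) < N := by linarith
  have hNA : 0 < (N : ℝ) ^ (1 / A) := by positivity
  have ht : 0 < t := by linarith
  set c := min c1 (1 / A) with hc
  have hcc1 : c ≤ c1 := min_le_left _ _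
  have hcA : c ≤ 1 / A := min_le_right _ _
  have hpos : 0 < (N : ℝ) ^ (1 - c) := by positivity
  show ‖Sit t N N1‖ ≤ _
  rcases le_total (N : ℝ) t with h | h
  · have h5 : t ≤ (N : ℝ) ^ (⌈A⌉₊ + 1) := by
      refine h4.trans ?_
      rw [← Real.rpow_natCast]
      apply Real.rpow_le_rpow_of_exponent_le hNr
      push_cast
      linarith [Nat.le_ceil A]
    refine (h1 N N1 t hN hN1 hN2 h h5).trans ?_
    have : (N : ℝ) ^ (1 - c1) ≤ (N : ℝ) ^ (1 - c) :=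
      Real.rpow_le_rpow_of_exponent_le hNr (by linarith)
    calc C1 * (N : ℝ) ^ (1 - c1) ≤ C1 * (N : ℝ) ^ (1 - c) := by gcongr
      _ ≤ _ := by nlinarith
  · refine (h2 N N1 t hN hN1 hN2 ht h).trans ?_
    have : N / t ≤ (N : ℝ) ^ (1 - c) := by
      rw [div_le_iff₀ ht]
      calc (N : ℝ) = (N : ℝ) ^ (1 - 1 / A) * (N : ℝ) ^ (1 / A) := by
            rw [← Real.rpow_add hN0]; simp
        _ ≤ (N : ℝ) ^ (1 - c) * t := by
            apply mul_le_mul _ h3 hNA.le hpos.le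
            exact Real.rpow_le_rpow_of_exponent_le hNr (by linarith)
    calc C2 * (N / t) ≤ C2 * (N : ℝ) ^ (1 - c) := by gcongr
      _ ≤ _ := by nlinarith

end Pool.Agent.Helper67.KSZ
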