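import Pool.Agent.Helper67.KSZ.KTest

/-! KSZ (MP_768c9c_nt): exponential sums `∑ n^(-it)` over dyadic intervals. -/

set_option autoImplicit false
open scoped ComplexConjugate

namespace Pool.Agent.Helper67.KSZ

open Pool.Agent.Helper10.QRH (ee)
open Pool.Agent.Helper64.QRH (ee_add ee_eq norm_ee KL)

/-! ### differences of smooth functions -/

/-- iterated forward differences of a function of a real variable -/
noncomputable def Dk : ℕ → (ℝ → ℝ) → ℝ → ℝ
  | 0, g => g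
  | k + 1, g => Dk k (fun x => g (x + 1) - g x)

theorem dk_eq_Dk (k : ℕ) : ∀ (g : ℝ → ℝ) (a : ℝ) (i : ℕ), dk k (fun i => g (a + i)) i = Dk k g (a + i) := by
  induction k with
  | zero => intro g a i; rfl
  | succ k ih =>
    intro g a i
    show dk k (fun n => g (a + ((n + 1 : ℕ) : ℝ)) - g (a + n)) i = Dk k (fun x => g (x + 1) - g x) (a + i)
    rw [← ih]
    congr 1
    funext n
    push_cast
    rw [add_assoc]

theorem Dk_mvt (k : ℕ) : ∀ (G : ℕ → ℝ → ℝ), (∀ j x, 0 < x → HasDerivAt (G j) (G (j + 1) x) x) →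
    ∀ x : ℝ, 0 < x → ∃ ξ ∈ Set.Icc x (x + k), Dk k (G 0) x = G k ξ := by
  induction k with
  | zero =>
    intro G _ x _
    exact ⟨x, ⟨le_rfl, by simp⟩, rfl⟩
  | succ k ih =>
    intro G hG x hx
    obtain ⟨ξ, hξ, h⟩ := ih (fun j y => G j (y + 1) - G j y) (fun j y hy => by
      have e1 : HasDerivAt (fun x => G j (x + 1)) (G (j + 1) (y + 1)) y :=
        HasDerivAt.comp_add_const y 1 (hG j (y + 1) (by linarith))
      exact e1.sub (hG j y hy)) x hx
    have hξ0 : 0 < ξ := lt_of_lt_of_le hx hξ.1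
    obtain ⟨η, hη, hη'⟩ := exists_hasDerivAt_eq_slope (G k) (G (k + 1))
      (show ξ < ξ + 1 by linarith)
      (fun y hy => (hG k y (lt_of_lt_of_le hξ0 hy.1)).continuousAt.continuousWithinAt)
      (fun y hy => hG k y (lt_trans hξ0 hy.1))
    refine ⟨η, ⟨by linarith [hξ.1, hη.1], ?_⟩, ?_⟩
    · push_cast
      linarith [hξ.2, hη.2]
    · show Dk k (fun x => G 0 (x + 1) - G 0 x) x = G (k + 1) η
      rw [hη', h]
      simp

/-- the derivatives of `log` -/
noncomputable def Glog : ℕ → ℝ → ℝ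
  | 0, x => Real.log x
  | j + 1, x => (-1) ^ j * (j.factorial : ℝ) * (x ^ (j + 1))⁻¹

theorem Glog_deriv (j : ℕ) (x : ℝ) (hx : 0 < x) : HasDerivAt (Glog j) (Glog (j + 1) x) x := by
  cases j with
  | zero =>
    have h := Real.hasDerivAt_log hx.ne'
    have e0 : Glog 0 = Real.log := by funext y; rfl
    have e1 : Glog (0 + 1) x = x⁻¹ := by simp [Glog]
    rw [e0, e1]
    exact h
  | succ j =>
    have h1 : HasDerivAt (fun y : ℝ => y ^ (j + 1)) (((j + 1 : ℕ) : ℝ) * x ^ j) x := by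
      have := hasDerivAt_pow (j + 1) x
      simpa using this
    have h2 := (h1.inv (by positivity)).const_mul ((-1 : ℝ) ^ j * (j.factorial : ℝ))
    have e : (-1 : ℝ) ^ j * (j.factorial : ℝ) * (-(((j + 1 : ℕ) : ℝ) * x ^ j) / (x ^ (j + 1)) ^ 2) =
        Glog (j + 1 + 1) x := by
      simp only [Glog]
      rw [Nat.factorial_succ, pow_succ (-1 : ℝ) j]
      push_cast
      field_simp
      ring
    rw [← e]
    exact h2

theorem dk_log_bounds (k : ℕ) (a : ℝ) (ha : 0 < a) (i : ℕ) :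
    (k.factorial : ℝ) * ((a + i + (k + 1)) ^ (k + 1))⁻¹ ≤
      (-1) ^ k * dk (k + 1) (fun i => Real.log (a + i)) i ∧
    (-1) ^ k * dk (k + 1) (fun i => Real.log (a + i)) i ≤
      (k.factorial : ℝ) * (a ^ (k + 1))⁻¹ := by
  have hi : (0 : ℝ) ≤ i := Nat.cast_nonneg i
  rw [dk_eq_Dk (k + 1) Real.log a i]
  obtain ⟨ξ, hξ, h⟩ := Dk_mvt (k + 1) Glog Glog_deriv (a + i) (by linarith)
  have h' : Dk (k + 1) Real.log (a + i) = (-1) ^ k * (k.factorial : ℝ) * (ξ ^ (k + 1))⁻¹ := h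
  have hξ0 : 0 < ξ := by linarith [hξ.1]
  have e : (-1 : ℝ) ^ k * Dk (k + 1) Real.log (a + i) = (k.factorial : ℝ) * (ξ ^ (k + 1))⁻¹ := by
    rw [h', ← mul_assoc, ← mul_assoc, ← mul_pow]
    norm_num
  rw [e]
  have hf : (0 : ℝ) ≤ k.factorial := Nat.cast_nonneg _
  constructor
  · apply mul_le_mul_of_nonneg_left _ hf
    apply inv_anti₀ (by positivity)
    apply pow_le_pow_left₀ hξ0.le
    have := hξ.2
    push_cast at this
    linarith
  · apply mul_le_mul_of_nonneg_left _ hf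
    apply inv_anti₀ (by positivity)
    apply pow_le_pow_left₀ ha.le
    linarith [hξ.1]

/-! ### the exponential sums -/

theorem nit_eq {n : ℕ} (hn : 0 < n) (t : ℝ) :
    (n : ℂ) ^ (-((t : ℂ) * Complex.I)) = ee (-(t / (2 * Real.pi)) * Real.log n) := by
  have hn' : (n : ℂ) ≠ 0 := by exact_mod_cast hn.ne'
  have hlog : Complex.log (n : ℂ) = ((Real.log n : ℝ) : ℂ) := by
    rw [← Complex.ofReal_natCast, Complex.ofReal_log (Nat.cast_nonneg n)]
  rw [Complex.cpow_def_of_ne_zero hn', hlog, ee]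
  congr 1
  have hpi : (Real.pi : ℂ) ≠ 0 := by exact_mod_cast Real.pi_ne_zero
  push_cast
  field_simp

theorem sum_Ioc_eq (F : ℕ → ℂ) (N N1 : ℕ) :
    ∑ n ∈ Finset.Ioc N N1, F n = ∑ i ∈ Finset.range (N1 - N), F (N + 1 + i) := by
  have : Finset.Ioc N N1 = Finset.Ico (N + 1) (N1 + 1) := by
    ext n; simp only [Finset.mem_Ioc, Finset.mem_Ico]; omega
  rw [this, Finset.sum_Ico_eq_sum_range]
  congr 2
  omega

/-- the shape of the sums -/
noncomputable def Sit (t : ℝ) (N N1 : ℕ) : ℂ :=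
  ∑ n ∈ Finset.Ioc N N1, (n : ℂ) ^ (-((t : ℂ) * Complex.I))

theorem norm_Sit (t : ℝ) (N N1 : ℕ) (e : ℝ) (he : e = 1 ∨ e = -1) : ‖Sit t N N1‖ =
    ‖∑ i ∈ Finset.range (N1 - N), ee (e * (t / (2 * Real.pi)) * Real.log (((N + 1 : ℕ) : ℝ) + i))‖ := by
  have h1 : Sit t N N1 = ∑ i ∈ Finset.range (N1 - N),
      ee (-(t / (2 * Real.pi)) * Real.log (((N + 1 : ℕ) : ℝ) + i)) := by
    unfold Sit
    rw [sum_Ioc_eq]
    apply Finset.sum_congr rfl
    intro i _
    rw [nit_eq (by omega)]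
    congr 3
    push_cast
    ring
  rcases he with rfl | rfl
  · rw [h1, ← RCLike.norm_conj, map_sum]
    congr 1
    apply Finset.sum_congr rfl
    intro i _
    rw [conj_ee]
    congr 1
    ring
  · rw [h1]
    congr 1
    apply Finset.sum_congr rfl
    intro i _
    congr 1
    ring

theorem norm_Sit_le (t : ℝ) {N N1 : ℕ} (h : N1 ≤ 2 * N) : ‖Sit t N N1‖ ≤ N := by
  rw [norm_Sit t N N1 1 (Or.inl rfl)]
  refine (norm_sum_ee_le _ _).trans ?_
  have : N1 - N ≤ N := by omega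
  exact_mod_cast this

/-- A1: the k-th derivative test for `∑ n^(-it)` -/
theorem A1 (k : ℕ) (hk : 2 ≤ k) : ∃ C : ℝ, 0 < C ∧ ∀ (N N1 : ℕ) (t : ℝ), 1 ≤ N → N < N1 →
    N1 ≤ 2 * N → 0 < t →
    ‖∑ n ∈ Finset.Ioc N N1, (n : ℂ) ^ (-((t : ℂ) * Complex.I))‖ ≤
      C * (N * (t / (N : ℝ) ^ k) ^ (1 / (2 ^ k - 2) : ℝ) +
        (N : ℝ) ^ (1 - 4 / 2 ^ k : ℝ) * ((N : ℝ) ^ k / t) ^ (1 / (2 ^ k - 2) : ℝ)) := by
  obtain ⟨m, rfl⟩ := Nat.exists_eq_add_of_le' hk
  obtain ⟨C, hC, hT⟩ := ktest m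
  set α : ℝ := 1 / (2 ^ (m + 2) - 2) with hα
  set β : ℝ := 4 / 2 ^ (m + 2) with hβ
  have hp : (1 : ℝ) ≤ 2 ^ m := one_le_pow₀ (by norm_num)
  have h4 : (2 : ℝ) ^ (m + 2) = 4 * 2 ^ m := by rw [pow_add]; ring
  have hα0 : 0 < α := by
    rw [hα, h4]; apply div_pos one_pos; linarith
  have hβ1 : β ≤ 1 := by rw [hβ, h4, div_le_one (by positivity)]; linarith
  set c : ℝ := ((m + 1).factorial : ℝ) / (2 * Real.pi) / 3 ^ (m + 2) with hc
  have hc0 : 0 < c := by
    have := Real.pi_pos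
    have : (0 : ℝ) < (m + 1).factorial := by exact_mod_cast Nat.factorial_pos _
    positivity
  set A : ℝ := 3 ^ (m + 2) with hA
  have hA1 : 1 ≤ A := one_le_pow₀ (by norm_num)
  refine ⟨C * A * (c ^ α + c ^ (-α)), by positivity, ?_⟩
  intro N N1 t hN hN1 hN2 ht
  have hNr : (1 : ℝ) ≤ N := by exact_mod_cast hN
  have hN0 : (0 : ℝ) < N := by linarith
  set lam : ℝ := c * (t / (N : ℝ) ^ (m + 2)) with hlam
  have hlam0 : 0 < lam := by positivity
  have h := norm_Sit t N N1 ((-1) ^ (m + 1)) (neg_one_pow_eq_or ℝ (m + 1))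
  unfold Sit at h
  rw [h]
  have hfac : (0 : ℝ) < (m + 1).factorial := by exact_mod_cast Nat.factorial_pos _
  have hcond : ∀ n, n + (m + 2) ≤ N1 - N →
      lam ≤ dk (m + 2) (fun i => (-1) ^ (m + 1) * (t / (2 * Real.pi)) *
        Real.log (((N + 1 : ℕ) : ℝ) + i)) n ∧
      dk (m + 2) (fun i => (-1) ^ (m + 1) * (t / (2 * Real.pi)) *
        Real.log (((N + 1 : ℕ) : ℝ) + i)) n ≤ A * lam := by
    intro n hn
    have e : dk (m + 2) (fun i => (-1) ^ (m + 1) * (t / (2 * Real.pi)) *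
        Real.log (((N + 1 : ℕ) : ℝ) + i)) n =
        (t / (2 * Real.pi)) * ((-1) ^ (m + 1) * dk (m + 2) (fun i =>
        Real.log (((N + 1 : ℕ) : ℝ) + i)) n) := by
      have hlin : ∀ (k : ℕ) (a : ℝ) (f : ℕ → ℝ) (n : ℕ), dk k (fun n => a * f n) n = a * dk k f n := by
        intro k
        induction k with
        | zero => intro a f n; rfl
        | succ k ih =>
          intro a f n
          show dk k (fun n => a * f (n + 1) - a * f n) n = a * dk k (fun n => f (n + 1) - f n) n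
          rw [← ih]
          congr 1
          funext n
          ring
      rw [hlin]
      ring
    rw [e]
    have hb := dk_log_bounds (m + 1) ((N + 1 : ℕ) : ℝ) (by positivity) n
    have hpi := Real.pi_pos
    have htp : 0 < t / (2 * Real.pi) := by positivity
    constructor
    · refine le_trans ?_ (mul_le_mul_of_nonneg_left hb.1 htp.le)
      have h1 : (((N + 1 : ℕ) : ℝ) + n + (((m + 1 : ℕ) : ℝ) + 1)) ≤ 3 * N := by
        have h2 : N + 1 + n + (m + 1 + 1) ≤ 3 * N := by omega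
        exact_mod_cast h2
      have h2 : ((3 * (N : ℝ)) ^ (m + 2))⁻¹ ≤
          ((((N + 1 : ℕ) : ℝ) + n + (((m + 1 : ℕ) : ℝ) + 1)) ^ (m + 1 + 1))⁻¹ := by
        apply inv_anti₀ (by positivity)
        exact pow_le_pow_left₀ (by positivity) h1 _
      calc lam = t / (2 * Real.pi) * (((m + 1).factorial : ℝ) * ((3 * (N : ℝ)) ^ (m + 2))⁻¹) := by
            rw [hlam, hc, mul_pow, hA]
            field_simp
        _ ≤ _ := by gcongr
    · refine le_trans (mul_le_mul_of_nonneg_left hb.2 htp.le) ?_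
      have h2 : ((((N + 1 : ℕ) : ℝ)) ^ (m + 1 + 1))⁻¹ ≤ ((N : ℝ) ^ (m + 2))⁻¹ := by
        apply inv_anti₀ (by positivity)
        apply pow_le_pow_left₀ hN0.le
        push_cast; linarith
      calc t / (2 * Real.pi) * (((m + 1).factorial : ℝ) * ((((N + 1 : ℕ) : ℝ)) ^ (m + 1 + 1))⁻¹)
          ≤ t / (2 * Real.pi) * (((m + 1).factorial : ℝ) * ((N : ℝ) ^ (m + 2))⁻¹) := by gcongr
        _ = A * lam := by
            rw [hlam, hc, hA]
            field_simp
  have h1 := hT (N1 - N) _ lam A hlam0 hA1 hcond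
  refine h1.trans ?_
  have hM : ((N1 - N : ℕ) : ℝ) ≤ N := by
    have : N1 - N ≤ N := by omega
    exact_mod_cast this
  have htN : 0 < t / (N : ℝ) ^ (m + 2) := by positivity
  have e1 : lam ^ α = c ^ α * (t / (N : ℝ) ^ (m + 2)) ^ α := by
    rw [hlam, Real.mul_rpow hc0.le htN.le]
  have e2 : lam ^ (-α) = c ^ (-α) * ((N : ℝ) ^ (m + 2) / t) ^ α := by
    rw [hlam, Real.mul_rpow hc0.le htN.le]
    congr 1
    rw [Real.rpow_neg htN.le, ← Real.inv_rpow htN.le, inv_div]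
  have hCA : 0 ≤ C * A := by positivity
  have h2 : ((N1 - N : ℕ) : ℝ) ^ (1 - β) ≤ (N : ℝ) ^ (1 - β) :=
    Real.rpow_le_rpow (Nat.cast_nonneg _) hM (by linarith)
  set P := (N : ℝ) * (t / (N : ℝ) ^ (m + 2)) ^ α with hP
  set Q := (N : ℝ) ^ (1 - β) * ((N : ℝ) ^ (m + 2) / t) ^ α with hQ
  have hP0 : 0 ≤ P := by positivity
  have hQ0 : 0 ≤ Q := by positivity
  have hca : 0 < c ^ α := by positivity
  have hcb : 0 < c ^ (-α) := by positivity
  calc C * A * (((N1 - N : ℕ) : ℝ) * lam ^ α + ((N1 - N : ℕ) : ℝ) ^ (1 - β) * lam ^ (-α))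
      ≤ C * A * ((N : ℝ) * lam ^ α + (N : ℝ) ^ (1 - β) * lam ^ (-α)) := by gcongr
    _ = C * A * (c ^ α * P + c ^ (-α) * Q) := by rw [e1, e2, hP, hQ]; ring
    _ ≤ C * A * ((c ^ α + c ^ (-α)) * (P + Q)) := by
        apply mul_le_mul_of_nonneg_left _ hCA
        nlinarith [mul_nonneg hca.le hQ0, mul_nonneg hcb.le hP0]
    _ = _ := by ring

/-! ### Kusmin-Landau -/

theorem KLsum {N N1 : ℕ} {t : ℝ} (hN : 1 ≤ N) (hN1 : N < N1) (hN2 : N1 ≤ 2 * N) (ht : 0 < t)
    (htN : t ≤ N) : ‖Sit t N N1‖ ≤ 12 * Real.pi * (N / t) := by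
  have hpi := Real.pi_pos
  have hpi3 := Real.pi_gt_three
  have hNr : (1 : ℝ) ≤ N := by exact_mod_cast hN
  have hN0 : (0 : ℝ) < N := by linarith
  rw [norm_Sit t N N1 (-1) (Or.inr rfl)]
  obtain ⟨M, hM⟩ : ∃ M, N1 - N = M + 1 := ⟨N1 - N - 1, by omega⟩
  rw [hM]
  set D : ℝ := t / (2 * Real.pi) / (3 * N) with hD
  have hD0 : 0 < D := by positivity
  have hDle : D ≤ 1 / 2 := by
    rw [hD, div_div, div_le_iff₀ (by positivity)]
    nlinarith
  have hMN : M + 1 ≤ N := by omega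
  set x : ℕ → ℝ := fun n => 1 - (t / (2 * Real.pi)) *
    (Real.log (((N + 1 : ℕ) : ℝ) + (n + 1 : ℕ)) - Real.log (((N + 1 : ℕ) : ℝ) + n)) with hx
  have hlog : ∀ n : ℕ, Real.log (((N + 1 : ℕ) : ℝ) + (n + 1 : ℕ)) -
      Real.log (((N + 1 : ℕ) : ℝ) + n) = Real.log (1 + 1 / (((N + 1 : ℕ) : ℝ) + n)) := by
    intro n
    rw [← Real.log_div (by positivity) (by positivity)]
    congr 1
    push_cast
    field_simp
    ring
  have h2D : 12 * Real.pi * (N / t) = 2 / D := by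
    rw [hD]; field_simp; ring
  rw [h2D]
  refine KL hD0 hDle (fun i => ee (-1 * (t / (2 * Real.pi)) * Real.log (((N + 1 : ℕ) : ℝ) + i)))
    x M (fun n => (norm_ee _).le) ?_ ?_ ?_
  · intro n hn
    have hnr : ((n : ℝ)) + 1 ≤ N := by
      have : n + 1 ≤ N := by omega
      exact_mod_cast this
    have hn0 : (0 : ℝ) ≤ n := Nat.cast_nonneg n
    set y : ℝ := 1 / (((N + 1 : ℕ) : ℝ) + n) with hy
    have hy0 : 0 < y := by positivity
    have hup : Real.log (1 + y) ≤ y := by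
      have := Real.log_le_sub_one_of_pos (show (0 : ℝ) < 1 + y by linarith)
      linarith
    have hlow : 1 / (3 * N) ≤ Real.log (1 + y) := by
      have h1 := Real.one_sub_inv_le_log_of_pos (show (0 : ℝ) < 1 + y by linarith)
      refine le_trans ?_ h1
      have h3 : (1 : ℝ) - (1 + y)⁻¹ = 1 / (((N + 1 : ℕ) : ℝ) + n + 1) := by
        rw [hy]; field_simp; ring
      rw [h3]
      apply one_div_le_one_div_of_le (by positivity)
      push_cast
      linarith
    have hy1 : y ≤ 1 / N := by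
      rw [hy]
      apply one_div_le_one_div_of_le hN0
      push_cast; linarith
    have hx' : x n = 1 - (t / (2 * Real.pi)) * Real.log (1 + y) := by
      rw [hx]; simp only; rw [hlog]
    rw [hx']
    have htp : 0 < t / (2 * Real.pi) := by positivity
    constructor
    · have h4 : (t / (2 * Real.pi)) * Real.log (1 + y) ≤ (t / (2 * Real.pi)) * (1 / N) := by
        gcongr
        linarith
      have h5 : (t / (2 * Real.pi)) * (1 / N) ≤ 1 / 2 := by
        rw [div_mul_div_comm, mul_one, div_le_iff₀ (by positivity)]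
        nlinarith
      linarith
    · have h4 : (t / (2 * Real.pi)) * (1 / (3 * N)) ≤ (t / (2 * Real.pi)) * Real.log (1 + y) := by
        gcongr
      have h5 : (t / (2 * Real.pi)) * (1 / (3 * N)) = D := by rw [hD]; field_simp
      linarith
  · intro n hn
    simp only [hx]
    rw [hlog, hlog]
    have h1 : Real.log (1 + 1 / (((N + 1 : ℕ) : ℝ) + (n + 1 : ℕ))) ≤
        Real.log (1 + 1 / (((N + 1 : ℕ) : ℝ) + n)) := by
      apply Real.log_le_log (by positivity)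
      have : 1 / (((N + 1 : ℕ) : ℝ) + (n + 1 : ℕ)) ≤ 1 / (((N + 1 : ℕ) : ℝ) + n) := by
        apply one_div_le_one_div_of_le (by positivity)
        push_cast; linarith
      linarith
    have htp : 0 < t / (2 * Real.pi) := by positivity
    have := mul_le_mul_of_nonneg_left h1 htp.le
    linarith
  · intro n hn
    simp only [hx]
    rw [← ee_add]
    have e : ee (-1 * (t / (2 * Real.pi)) * Real.log (((N + 1 : ℕ) : ℝ) + (n + 1 : ℕ))) =
        ee ((-1 * (t / (2 * Real.pi)) * Real.log (((N + 1 : ℕ) : ℝ) + n) +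
          (1 - (t / (2 * Real.pi)) *
    (Real.log (((N + 1 : ℕ) : ℝ) + (n + 1 : ℕ)) - Real.log (((N + 1 : ℕ) : ℝ) + n)))) - ((1 : ℤ) : ℝ)) := by
      congr 1
      push_cast
      ring
    rw [e, Pool.Agent.Helper64.QRH.ee_sub_int]

end Pool.Agent.Helper67.KSZ
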