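import Pool.Agent.Helper67.KSZ.Weyl
import Pool.Agent.Helper64.QRH.Vdc

/-! KSZ (MP_768c9c_nt): the k-th derivative test for exponential sums, in a discrete form. -/

set_option autoImplicit false
open scoped ComplexConjugate

namespace Pool.Agent.Helper67.KSZ

open Pool.Agent.Helper10.QRH (ee)
open Pool.Agent.Helper64.QRH (ee_add ee_eq norm_ee seq_bound)

/-- iterated forward differences -/
noncomputable def dk : ℕ → (ℕ → ℝ) → ℕ → ℝ
  | 0, f => f
  | k + 1, f => dk k (fun n => f (n + 1) - f n)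

theorem dk_shift (k : ℕ) : ∀ (f : ℕ → ℝ) (r n : ℕ), dk k (fun n => f (n + r)) n = dk k f (n + r) := by
  induction k with
  | zero => intro f r n; rfl
  | succ k ih =>
    intro f r n
    show dk k (fun n => f (n + 1 + r) - f (n + r)) n = dk k (fun n => f (n + 1) - f n) (n + r)
    rw [← ih (fun n => f (n + 1) - f n) r n]
    congr 1
    funext m
    have : m + 1 + r = m + r + 1 := by ring
    rw [this]

theorem dk_sub (k : ℕ) : ∀ (f g : ℕ → ℝ) (n : ℕ),
    dk k (fun n => f n - g n) n = dk k f n - dk k g n := by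
  induction k with
  | zero => intro f g n; rfl
  | succ k ih =>
    intro f g n
    show dk k (fun n => (f (n + 1) - g (n + 1)) - (f n - g n)) n =
      dk k (fun n => f (n + 1) - f n) n - dk k (fun n => g (n + 1) - g n) n
    rw [← ih]
    congr 1
    funext m
    ring

theorem dk_neg (k : ℕ) : ∀ (f : ℕ → ℝ) (n : ℕ), dk k (fun n => - f n) n = - dk k f n := by
  induction k with
  | zero => intro f n; rfl
  | succ k ih =>
    intro f n
    show dk k (fun n => (- f (n + 1)) - (- f n)) n = - dk k (fun n => f (n + 1) - f n) n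
    rw [← ih]
    congr 1
    funext m
    ring

theorem dk_succ (k : ℕ) (f : ℕ → ℝ) (n : ℕ) : dk (k + 1) f n = dk k f (n + 1) - dk k f n := by
  show dk k (fun n => f (n + 1) - f n) n = _
  rw [dk_sub k (fun n => f (n + 1)) f n, dk_shift]

theorem dk_diff (k : ℕ) (f : ℕ → ℝ) (r n : ℕ) :
    dk k (fun n => f (n + r) - f n) n = ∑ j ∈ Finset.range r, dk (k + 1) f (n + j) := by
  rw [dk_sub k (fun n => f (n + r)) f n, dk_shift]
  have : ∀ j ∈ Finset.range r, dk (k + 1) f (n + j) =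
      (fun j => dk k f (n + j)) (j + 1) - (fun j => dk k f (n + j)) j := by
    intro j _
    rw [dk_succ]
    rfl
  rw [Finset.sum_congr rfl this, Finset.sum_range_sub (fun j => dk k f (n + j)) r]
  simp

/-- the k-th difference test -/
def KTest (k : ℕ) (α β C : ℝ) : Prop := ∀ (N : ℕ) (f : ℕ → ℝ) (lam A : ℝ), 0 < lam → 1 ≤ A →
  (∀ n, n + k ≤ N → lam ≤ dk k f n ∧ dk k f n ≤ A * lam) →
  ‖∑ n ∈ Finset.range N, ee (f n)‖ ≤
    C * A * (N * lam ^ α + (N : ℝ) ^ (1 - β) * lam ^ (-α))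

theorem norm_sum_ee_le (N : ℕ) (f : ℕ → ℝ) : ‖∑ n ∈ Finset.range N, ee (f n)‖ ≤ N := by
  refine (norm_sum_le _ _).trans ?_
  rw [Finset.sum_congr rfl (fun n _ => norm_ee (f n))]
  simp

theorem conj_ee (x : ℝ) : conj (ee x) = ee (-x) := by
  rw [ee_eq, ee_eq, map_add, map_mul, Complex.conj_ofReal, Complex.conj_ofReal, Complex.conj_I,
    mul_neg, mul_neg, Real.cos_neg, Real.sin_neg]
  push_cast
  ring

theorem corr_ee (f : ℕ → ℝ) (N r : ℕ) :
    corr (fun n => ee (f n)) N r = ∑ n ∈ Finset.range (N - r), ee (f (n + r) - f n) := by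
  unfold corr
  apply Finset.sum_congr rfl
  intro n _
  rw [conj_ee, ← ee_add, sub_eq_add_neg]

theorem ktest_two : KTest 2 (1 / 2) 1 10 := by
  intro N f lam A hl hA h
  rcases Nat.eq_zero_or_pos N with hN | hN
  · subst hN
    simp only [Finset.range_zero, Finset.sum_empty, norm_zero]
    positivity
  have hN' : (1 : ℝ) ≤ N := by exact_mod_cast hN
  have hr : 0 < Real.sqrt lam := Real.sqrt_pos.2 hl
  rw [← Real.sqrt_eq_rpow, Real.rpow_neg hl.le, ← Real.sqrt_eq_rpow, sub_self, Real.rpow_zero,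
    one_mul]
  by_cases hs : Real.sqrt lam ≤ 1 / 4
  · have h1 := seq_bound (z := fun n => ee (f n)) (δ := fun n => f (n + 1) - f n) (N := N)
      (lam := lam) (A := A) hl hA (fun n => (norm_ee _).le)
      (fun n _ => by rw [← ee_add]; congr 1; ring)
      (fun n hn => (h n (by omega)).1) (fun n hn => (h n (by omega)).2) hs
    refine h1.trans ?_
    have e : A * lam * N * (5 / Real.sqrt lam) = 5 * A * N * Real.sqrt lam := by
      have : lam = Real.sqrt lam * Real.sqrt lam := (Real.mul_self_sqrt hl.le).symm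
      field_simp
      nlinarith [Real.sq_sqrt hl.le]
    have h2 : (A * lam * N + 2) * (5 / Real.sqrt lam) =
        5 * A * N * Real.sqrt lam + 10 * (Real.sqrt lam)⁻¹ := by
      rw [add_mul, e]; ring
    rw [h2]
    have h3 : 0 < (Real.sqrt lam)⁻¹ := inv_pos.2 hr
    have h4 : 0 < A * N * Real.sqrt lam := by positivity
    nlinarith
  · refine (norm_sum_ee_le N f).trans ?_
    push Not at hs
    have h3 : 0 < (Real.sqrt lam)⁻¹ := inv_pos.2 hr
    have h4 : (N : ℝ) * (1 / 4) ≤ N * Real.sqrt lam := by nlinarith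
    have h5 : 0 ≤ N * Real.sqrt lam := by positivity
    calc (N : ℝ) ≤ 10 * 1 * (N * Real.sqrt lam + 0) := by linarith
      _ ≤ 10 * A * (N * Real.sqrt lam + (Real.sqrt lam)⁻¹) := by gcongr

theorem sum_rpow_neg_le {α : ℝ} (h0 : 0 < α) (h1 : α ≤ 1 / 2) (n : ℕ) :
    ∑ x ∈ Finset.range n, ((x + 1 : ℕ) : ℝ) ^ (-α) ≤ 2 * (n : ℝ) ^ (1 - α) := by
  induction n with
  | zero => simp; positivity
  | succ n ih =>
    rw [Finset.sum_range_succ]
    have hn : (0 : ℝ) < ((n + 1 : ℕ) : ℝ) := by positivity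
    have h2 : (n : ℝ) ^ (1 - α) ≤
        ((n + 1 : ℕ) : ℝ) ^ (1 - α) - (1 - α) * ((n + 1 : ℕ) : ℝ) ^ (-α) := by
      have e : (n : ℝ) = ((n + 1 : ℕ) : ℝ) * (1 + (-1 / ((n + 1 : ℕ) : ℝ))) := by
        rw [mul_add, mul_div_assoc', mul_one, mul_neg_one, neg_div, div_self hn.ne']
        push_cast; ring
      have hnn : (-1 : ℝ) ≤ -1 / ((n + 1 : ℕ) : ℝ) := by
        rw [le_div_iff₀ hn]
        push_cast
        have : (0 : ℝ) ≤ n := Nat.cast_nonneg n
        linarith
      have hb := rpow_one_add_le_one_add_mul_self hnn (p := 1 - α) (by linarith) (by linarith)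
      calc (n : ℝ) ^ (1 - α) = (((n + 1 : ℕ) : ℝ) * (1 + (-1 / ((n + 1 : ℕ) : ℝ)))) ^ (1 - α) := by
            rw [← e]
        _ = ((n + 1 : ℕ) : ℝ) ^ (1 - α) * (1 + (-1 / ((n + 1 : ℕ) : ℝ))) ^ (1 - α) :=
            Real.mul_rpow hn.le (by linarith)
        _ ≤ ((n + 1 : ℕ) : ℝ) ^ (1 - α) * (1 + (1 - α) * (-1 / ((n + 1 : ℕ) : ℝ))) :=
            mul_le_mul_of_nonneg_left hb (by positivity)
        _ = ((n + 1 : ℕ) : ℝ) ^ (1 - α) - (1 - α) * (((n + 1 : ℕ) : ℝ) ^ (1 - α) /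
              ((n + 1 : ℕ) : ℝ)) := by ring
        _ = _ := by
            congr 2
            rw [div_eq_mul_inv, ← Real.rpow_neg_one, ← Real.rpow_add hn]
            congr 1
            ring
    have h3 : 0 ≤ ((n + 1 : ℕ) : ℝ) ^ (-α) := by positivity
    nlinarith

/-- the induction step -/
theorem ktest_succ {k : ℕ} {α β C : ℝ} (h0 : 0 < α) (h1 : α ≤ 1 / 2) (hβ : β ≤ 1)
    (hC : 0 ≤ C) (h : KTest k α β C) :
    KTest (k + 1) (α / (2 * (1 + α))) (β / 2) (4 * (1 + C)) := by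
  intro N f lam A hl hA hd
  set α' : ℝ := α / (2 * (1 + α)) with hα'
  have hα'0 : 0 < α' := by positivity
  have hrel : (1 - 2 * α') * α = 2 * α' := by
    rw [hα']; field_simp; ring
  have hrel2 : 0 < 1 - 2 * α' := by
    have : 1 - 2 * α' = 1 / (1 + α) := by rw [hα']; field_simp; ring
    rw [this]; positivity
  rcases Nat.eq_zero_or_pos N with hN | hN
  · subst hN
    simp only [Finset.range_zero, Finset.sum_empty, norm_zero]
    positivity
  have hN' : (1 : ℝ) ≤ N := by exact_mod_cast hN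
  have hN0 : (0 : ℝ) < N := by linarith
  set S := ‖∑ n ∈ Finset.range N, ee (f n)‖ with hS
  have htriv : S ≤ N := norm_sum_ee_le N f
  have hP1 : 0 ≤ N * lam ^ α' := by positivity
  have hP2 : 0 ≤ (N : ℝ) ^ (1 - β / 2) * lam ^ (-α') := by positivity
  have hCA : 1 ≤ 4 * (1 + C) * A := by nlinarith
  -- trivial cases
  by_cases hlam1 : 1 ≤ lam
  · have h2 : 1 ≤ lam ^ α' := Real.one_le_rpow hlam1 hα'0.le
    have h3 : (N : ℝ) ≤ N * lam ^ α' := by nlinarith
    nlinarith
  push Not at hlam1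
  set H0 : ℝ := lam ^ (-(2 * α')) with hH0
  have hH0pos : 0 < H0 := by positivity
  have hH01 : 1 ≤ H0 := Real.one_le_rpow_of_pos_of_le_one_of_nonpos hl hlam1.le (by linarith)
  by_cases hbig : (N : ℝ) < H0
  · have h2 : (N : ℝ) ^ (1 / 2 : ℝ) ≤ lam ^ (-α') := by
      have h3 : (N : ℝ) ^ (1 / 2 : ℝ) ≤ H0 ^ (1 / 2 : ℝ) :=
        Real.rpow_le_rpow hN0.le hbig.le (by norm_num)
      refine h3.trans (le_of_eq ?_)
      rw [hH0, ← Real.rpow_mul hl.le]
      congr 1
      ring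
    have h4 : (N : ℝ) ^ (1 / 2 : ℝ) ≤ (N : ℝ) ^ (1 - β / 2) :=
      Real.rpow_le_rpow_of_exponent_le hN' (by linarith)
    have h5 : (N : ℝ) ≤ (N : ℝ) ^ (1 - β / 2) * lam ^ (-α') := by
      calc (N : ℝ) = (N : ℝ) ^ (1 / 2 : ℝ) * (N : ℝ) ^ (1 / 2 : ℝ) := by
            rw [← Real.rpow_add hN0]; norm_num
        _ ≤ _ := mul_le_mul h4 h2 (by positivity) (by positivity)
    nlinarith
  push Not at hbig
  -- main case
  set H : ℕ := ⌊H0⌋₊ with hHdef
  have hH1 : 1 ≤ H := Nat.one_le_iff_ne_zero.2 (by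
    intro h0
    rw [hHdef, Nat.floor_eq_zero] at h0
    linarith)
  have hHle : (H : ℝ) ≤ H0 := Nat.floor_le hH0pos.le
  have hHge : H0 / 2 ≤ H := by
    have h2 := Nat.lt_floor_add_one H0
    have h3 : (1 : ℝ) ≤ H := by exact_mod_cast hH1
    rw [← hHdef] at h2
    linarith
  have hHpos : (0 : ℝ) < H := by exact_mod_cast hH1
  have hHN : (H : ℝ) ≤ N := hHle.trans hbig
  have e0 : H0 * lam = lam ^ (1 - 2 * α') := by
    calc H0 * lam = lam ^ (-(2 * α')) * lam ^ (1 : ℝ) := by rw [Real.rpow_one]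
      _ = lam ^ (1 - 2 * α') := by
        rw [← Real.rpow_add hl]
        congr 1
        ring
  -- facts
  set u : ℝ := lam ^ (2 * α') with hu
  set v : ℝ := lam ^ (-(2 * α')) with hv
  have hupos : 0 < u := by positivity
  have hvpos : 0 < v := by positivity
  have huv : u * v = 1 := by
    rw [hu, hv, ← Real.rpow_add hl]; simp
  have f1 : 1 / (H : ℝ) ≤ 2 * u := by
    rw [div_le_iff₀ hHpos]
    have : u * H0 = 1 := huv
    nlinarith
  have f2 : ((H : ℝ) * lam) ^ α ≤ u := by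
    have h2 : (H : ℝ) * lam ≤ lam ^ (1 - 2 * α') := by
      calc (H : ℝ) * lam ≤ H0 * lam := by gcongr
        _ = lam ^ (1 - 2 * α') := e0
    calc ((H : ℝ) * lam) ^ α ≤ (lam ^ (1 - 2 * α')) ^ α :=
          Real.rpow_le_rpow (by positivity) h2 h0.le
      _ = u := by rw [← Real.rpow_mul hl.le, hrel]
  have f3 : ((H : ℝ) * lam) ^ (-α) ≤ 2 * v := by
    have h2 : lam ^ (1 - 2 * α') / 2 ≤ (H : ℝ) * lam := by
      calc lam ^ (1 - 2 * α') / 2 = H0 / 2 * lam := by
            rw [← e0]; ring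
        _ ≤ H * lam := by gcongr
    have h3 : 0 < lam ^ (1 - 2 * α') / 2 := by positivity
    calc ((H : ℝ) * lam) ^ (-α) ≤ (lam ^ (1 - 2 * α') / 2) ^ (-α) :=
          Real.rpow_le_rpow_of_nonpos h3 h2 (by linarith)
      _ = (lam ^ (1 - 2 * α')) ^ (-α) / 2 ^ (-α) := Real.div_rpow (by positivity) (by norm_num) _
      _ = v * 2 ^ α := by
          rw [← Real.rpow_mul hl.le, Real.rpow_neg (by norm_num : (0 : ℝ) ≤ 2), div_inv_eq_mul]
          congr 2
          linarith
      _ ≤ v * 2 ^ (1 : ℝ) := by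
          apply mul_le_mul_of_nonneg_left _ hvpos.le
          exact Real.rpow_le_rpow_of_exponent_le (by norm_num) (by linarith)
      _ = 2 * v := by rw [Real.rpow_one]; ring
  -- Weyl differencing
  have hW := weyl_vdc (fun n => ee (f n)) N H hH1
  have hc0 : ‖corr (fun n => ee (f n)) N 0‖ ≤ N := by
    rw [corr_ee]
    exact norm_sum_ee_le _ _
  have hcr : ∀ x ∈ Finset.range (H - 1), ‖corr (fun n => ee (f n)) N (x + 1)‖ ≤
      C * A * (N * u) + C * A * ((N : ℝ) ^ (1 - β) * lam ^ (-α)) * ((x + 1 : ℕ) : ℝ) ^ (-α) := by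
    intro x hx
    have hx' := Finset.mem_range.1 hx
    rw [corr_ee]
    have hxpos : (0 : ℝ) < ((x + 1 : ℕ) : ℝ) := by positivity
    have h2 := h (N - (x + 1)) (fun n => f (n + (x + 1)) - f n) (((x + 1 : ℕ) : ℝ) * lam) A
      (by positivity) hA (by
        intro n hn
        rw [dk_diff]
        by_cases hNx : x + 1 ≤ N
        · have h3 : ∀ j ∈ Finset.range (x + 1), lam ≤ dk (k + 1) f (n + j) ∧
              dk (k + 1) f (n + j) ≤ A * lam := by
            intro j hj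
            have := Finset.mem_range.1 hj
            exact hd (n + j) (by omega)
          constructor
          · have := Finset.card_nsmul_le_sum (Finset.range (x + 1)) (fun j => dk (k + 1) f (n + j))
              lam (fun j hj => (h3 j hj).1)
            rwa [Finset.card_range, nsmul_eq_mul] at this
          · have := Finset.sum_le_card_nsmul (Finset.range (x + 1)) (fun j => dk (k + 1) f (n + j))
              (A * lam) (fun j hj => (h3 j hj).2)
            rw [Finset.card_range, nsmul_eq_mul] at this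
            linarith
        · exfalso
          have : (x : ℝ) + 1 ≤ N := by
            have h5 : x + 1 ≤ H := by omega
            have h6 : ((x + 1 : ℕ) : ℝ) ≤ H := by exact_mod_cast h5
            push_cast at h6
            linarith
          exact hNx (by exact_mod_cast this))
    refine h2.trans ?_
    have hNr : ((N - (x + 1) : ℕ) : ℝ) ≤ N := by exact_mod_cast Nat.sub_le _ _
    have h3 : (((x + 1 : ℕ) : ℝ) * lam) ^ α ≤ u := by
      refine le_trans (Real.rpow_le_rpow (by positivity) ?_ h0.le) f2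
      have h5 : x + 1 ≤ H := by omega
      have h6 : ((x + 1 : ℕ) : ℝ) ≤ H := by exact_mod_cast h5
      gcongr
    have h4 : (((x + 1 : ℕ) : ℝ) * lam) ^ (-α) = ((x + 1 : ℕ) : ℝ) ^ (-α) * lam ^ (-α) :=
      Real.mul_rpow hxpos.le hl.le
    have h5 : ((N - (x + 1) : ℕ) : ℝ) ^ (1 - β) ≤ (N : ℝ) ^ (1 - β) :=
      Real.rpow_le_rpow (Nat.cast_nonneg _) hNr (by linarith)
    have hCA0 : 0 ≤ C * A := by positivity
    calc C * A * (((N - (x + 1) : ℕ) : ℝ) * (((x + 1 : ℕ) : ℝ) * lam) ^ α +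
          ((N - (x + 1) : ℕ) : ℝ) ^ (1 - β) * (((x + 1 : ℕ) : ℝ) * lam) ^ (-α))
        ≤ C * A * (N * u + (N : ℝ) ^ (1 - β) * (((x + 1 : ℕ) : ℝ) ^ (-α) * lam ^ (-α))) := by
          rw [h4]
          gcongr
      _ = _ := by ring
  have hsum : ∑ x ∈ Finset.range (H - 1), ‖corr (fun n => ee (f n)) N (x + 1)‖ ≤
      H * (C * A * (N * u)) + C * A * ((N : ℝ) ^ (1 - β) * lam ^ (-α)) * (2 * (H : ℝ) ^ (1 - α)) := by
    refine (Finset.sum_le_sum hcr).trans ?_
    rw [Finset.sum_add_distrib]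
    have hHm : ((H - 1 : ℕ) : ℝ) ≤ H := by exact_mod_cast Nat.sub_le _ _
    have h2 : ∑ x ∈ Finset.range (H - 1), C * A * (N * u) ≤ H * (C * A * (N * u)) := by
      rw [Finset.sum_const, Finset.card_range, nsmul_eq_mul]
      gcongr
    have h3 : ∑ x ∈ Finset.range (H - 1), ((x + 1 : ℕ) : ℝ) ^ (-α) ≤ 2 * (H : ℝ) ^ (1 - α) := by
      refine (sum_rpow_neg_le h0 h1 _).trans ?_
      have := Real.rpow_le_rpow (Nat.cast_nonneg _) hHm (z := 1 - α) (by linarith)
      linarith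
    have hCA0 : 0 ≤ C * A * ((N : ℝ) ^ (1 - β) * lam ^ (-α)) := by positivity
    refine add_le_add h2 ?_
    rw [← Finset.mul_sum]
    exact mul_le_mul_of_nonneg_left h3 hCA0
  have hHα : (H : ℝ) ^ (1 - α) * lam ^ (-α) = H * ((H : ℝ) * lam) ^ (-α) := by
    rw [Real.mul_rpow hHpos.le hl.le, sub_eq_add_neg, Real.rpow_add hHpos, Real.rpow_one]
    ring
  have hS2 : S ^ 2 * H ≤ (2 * N) * (N + 2 * (H * (C * A * (N * u)) +
      C * A * (N : ℝ) ^ (1 - β) * (2 * (H * (2 * v))))) := by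
    refine hW.trans ?_
    have hNH : ((N + H : ℕ) : ℝ) ≤ 2 * N := by push_cast; linarith
    have h2 : ‖corr (fun n => ee (f n)) N 0‖ +
        2 * ∑ x ∈ Finset.range (H - 1), ‖corr (fun n => ee (f n)) N (x + 1)‖ ≤
        N + 2 * (H * (C * A * (N * u)) + C * A * (N : ℝ) ^ (1 - β) * (2 * (H * (2 * v)))) := by
      have h3 : C * A * ((N : ℝ) ^ (1 - β) * lam ^ (-α)) * (2 * (H : ℝ) ^ (1 - α)) ≤
          C * A * (N : ℝ) ^ (1 - β) * (2 * (H * (2 * v))) := by
        calc C * A * ((N : ℝ) ^ (1 - β) * lam ^ (-α)) * (2 * (H : ℝ) ^ (1 - α)) =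
            C * A * (N : ℝ) ^ (1 - β) * (2 * ((H : ℝ) ^ (1 - α) * lam ^ (-α))) := by ring
          _ = C * A * (N : ℝ) ^ (1 - β) * (2 * (H * ((H : ℝ) * lam) ^ (-α))) := by rw [hHα]
          _ ≤ _ := by gcongr
      linarith
    refine mul_le_mul hNH h2 ?_ (by positivity)
    have : 0 ≤ ∑ x ∈ Finset.range (H - 1), ‖corr (fun n => ee (f n)) N (x + 1)‖ :=
      Finset.sum_nonneg (fun _ _ => norm_nonneg _)
    have h5 := norm_nonneg (corr (fun n => ee (f n)) N 0)
    linarith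
  -- divide by H
  have hS3 : S ^ 2 ≤ (2 * N) * (N * (2 * u) + 2 * (C * A * (N * u)) +
      8 * C * A * (N : ℝ) ^ (1 - β) * v) := by
    have h2 : S ^ 2 * H ≤ ((2 * N) * (N * (1 / H) + 2 * (C * A * (N * u)) +
      8 * C * A * (N : ℝ) ^ (1 - β) * v)) * H := by
      refine hS2.trans (le_of_eq ?_)
      field_simp
      ring
    have h3 := le_of_mul_le_mul_right h2 hHpos
    refine h3.trans ?_
    gcongr
  have hS4 : S ^ 2 ≤ (4 * (1 + C) * A * (N * lam ^ α' + (N : ℝ) ^ (1 - β / 2) * lam ^ (-α'))) ^ 2 := by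
    have e1 : (N * lam ^ α') ^ 2 = N * (N * u) := by
      rw [mul_pow, hu, two_mul, Real.rpow_add hl]; ring
    have e2 : ((N : ℝ) ^ (1 - β / 2) * lam ^ (-α')) ^ 2 = N * (N : ℝ) ^ (1 - β) * v := by
      rw [mul_pow, hv, ← Real.rpow_natCast, ← Real.rpow_natCast, ← Real.rpow_mul hN0.le,
        ← Real.rpow_mul hl.le]
      have : (N : ℝ) * (N : ℝ) ^ (1 - β) = (N : ℝ) ^ (1 + (1 - β)) := by
        rw [Real.rpow_add hN0, Real.rpow_one]
      rw [this]
      congr 1
      · congr 1; push_cast; ring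
      · congr 1; push_cast; ring
    have h2 : (N * lam ^ α' + (N : ℝ) ^ (1 - β / 2) * lam ^ (-α')) ^ 2 ≥
        N * (N * u) + N * (N : ℝ) ^ (1 - β) * v := by
      rw [← e1, ← e2]
      nlinarith [mul_nonneg hP1 hP2]
    have hAA : A ≤ A ^ 2 := by nlinarith
    have hCC : 1 + C ≤ (1 + C) ^ 2 := by nlinarith
    have hQ1 : 0 ≤ N * (N * u) := by positivity
    have hQ2 : 0 ≤ N * (N : ℝ) ^ (1 - β) * v := by positivity
    have hK : 16 * (1 + C) * A ≤ (4 * (1 + C) * A) ^ 2 := by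
      have : (1 + C) * A ≤ (1 + C) ^ 2 * A ^ 2 := by
        apply mul_le_mul hCC hAA (by linarith) (by positivity)
      nlinarith
    calc S ^ 2 ≤ (2 * N) * (N * (2 * u) + 2 * (C * A * (N * u)) +
          8 * C * A * (N : ℝ) ^ (1 - β) * v) := hS3
      _ = (4 + 4 * C * A) * (N * (N * u)) + 16 * C * A * (N * (N : ℝ) ^ (1 - β) * v) := by ring
      _ ≤ 16 * (1 + C) * A * (N * (N * u)) + 16 * (1 + C) * A * (N * (N : ℝ) ^ (1 - β) * v) := by
          have hCA' : 0 ≤ C * A := by positivity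
          apply add_le_add
          · apply mul_le_mul_of_nonneg_right _ hQ1
            nlinarith
          · apply mul_le_mul_of_nonneg_right _ hQ2
            nlinarith
      _ = 16 * (1 + C) * A * (N * (N * u) + N * (N : ℝ) ^ (1 - β) * v) := by ring
      _ ≤ (4 * (1 + C) * A) ^ 2 * (N * lam ^ α' + (N : ℝ) ^ (1 - β / 2) * lam ^ (-α')) ^ 2 := by
          apply mul_le_mul hK h2 (by positivity) (by positivity)
      _ = _ := by ring
  exact le_of_sq_le_sq hS4 (by positivity)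

/-- the k-th difference test for all `k ≥ 2` -/
theorem ktest (k : ℕ) : ∃ C : ℝ, 1 ≤ C ∧
    KTest (k + 2) (1 / (2 ^ (k + 2) - 2)) (4 / 2 ^ (k + 2)) C := by
  induction k with
  | zero =>
    refine ⟨10, by norm_num, ?_⟩
    have := ktest_two
    norm_num at this ⊢
    exact this
  | succ k ih =>
    obtain ⟨C, hC, h⟩ := ih
    have hp : (1 : ℝ) ≤ 2 ^ k := one_le_pow₀ (by norm_num)
    have h4 : (2 : ℝ) ^ (k + 2) = 4 * 2 ^ k := by rw [pow_add]; ring
    have h8 : (2 : ℝ) ^ (k + 1 + 2) = 8 * 2 ^ k := by rw [pow_add, pow_add]; ring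
    have h5 : (0 : ℝ) < 2 ^ (k + 2) - 2 := by rw [h4]; linarith
    have h6 := ktest_succ (k := k + 2) (α := 1 / (2 ^ (k + 2) - 2)) (β := 4 / 2 ^ (k + 2)) (C := C)
      (by positivity) (by
        rw [div_le_div_iff₀ h5 (by norm_num), h4]; linarith) (by
        rw [div_le_one (by positivity), h4]; linarith) (by linarith) h
    refine ⟨4 * (1 + C), by linarith, ?_⟩
    have e1 : (1 : ℝ) / (2 ^ (k + 2) - 2) / (2 * (1 + 1 / (2 ^ (k + 2) - 2))) =
        1 / (2 ^ (k + 1 + 2) - 2) := by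
      have h9 : (2 : ℝ) ^ (k + 1 + 2) - 2 = 2 * ((2 ^ (k + 2) - 2) + 1) := by rw [h4, h8]; ring
      rw [h9]
      generalize (2 : ℝ) ^ (k + 2) - 2 = D at h5
      field_simp
    have e2 : (4 : ℝ) / 2 ^ (k + 2) / 2 = 4 / 2 ^ (k + 1 + 2) := by
      rw [h4, h8]; field_simp; ring
    rw [e1, e2] at h6
    exact h6

end Pool.Agent.Helper67.KSZ
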