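import Mathlib

/-! KSZ (MP_768c9c_nt): van der Corput's inequality (Weyl differencing). -/

set_option autoImplicit false
open scoped ComplexConjugate

namespace Pool.Agent.Helper67.KSZ

/-- truncation of a sequence -/
noncomputable def trunc (z : ℕ → ℂ) (N : ℕ) (n : ℕ) : ℂ := if n < N then z n else 0

/-- shifted truncation -/
noncomputable def shifted (z : ℕ → ℂ) (N j m : ℕ) : ℂ := if j ≤ m then trunc z N (m - j) else 0

theorem sum_shift (F : ℕ → ℂ) (N M j : ℕ) (hF : ∀ n, N ≤ n → F n = 0) (hM : j + N ≤ M) :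
    ∑ m ∈ Finset.range M, (if j ≤ m then F (m - j) else 0) = ∑ n ∈ Finset.range N, F n := by
  obtain ⟨d, rfl⟩ := Nat.exists_eq_add_of_le hM
  rw [add_assoc, Finset.sum_range_add]
  have h1 : ∑ x ∈ Finset.range j, (if j ≤ x then F (x - j) else 0) = 0 := by
    apply Finset.sum_eq_zero
    intro x hx
    rw [if_neg (by rw [Finset.mem_range] at hx; omega)]
  have h2 : ∑ x ∈ Finset.range (N + d), (if j ≤ j + x then F (j + x - j) else 0) =
      ∑ x ∈ Finset.range (N + d), F x := by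
    apply Finset.sum_congr rfl
    intro x _
    rw [if_pos (by omega), Nat.add_sub_cancel_left]
  rw [h1, h2, zero_add, Finset.sum_range_add]
  have h3 : ∑ x ∈ Finset.range d, F (N + x) = 0 :=
    Finset.sum_eq_zero (fun x _ => hF _ (by omega))
  rw [h3, add_zero]

theorem sum_shifted (z : ℕ → ℂ) (N H j : ℕ) (hj : j < H) :
    ∑ m ∈ Finset.range (N + H), shifted z N j m = ∑ n ∈ Finset.range N, z n := by
  unfold shifted
  rw [sum_shift (trunc z N) N (N + H) j (fun n hn => by rw [trunc, if_neg (by omega)]) (by omega)]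
  apply Finset.sum_congr rfl
  intro n hn
  rw [trunc, if_pos (Finset.mem_range.1 hn)]

/-- correlation -/
noncomputable def corr (z : ℕ → ℂ) (N r : ℕ) : ℂ :=
  ∑ n ∈ Finset.range (N - r), z (n + r) * conj (z n)

theorem sum_prod (z : ℕ → ℂ) (N H j r : ℕ) (hj : j + r < H) :
    ∑ m ∈ Finset.range (N + H), shifted z N j m * conj (shifted z N (j + r) m) =
      corr z N r := by
  have h1 : ∀ m, shifted z N j m * conj (shifted z N (j + r) m) =
      if j + r ≤ m then (fun n => trunc z N (n + r) * conj (trunc z N n)) (m - (j + r)) else 0 := by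
    intro m
    unfold shifted
    by_cases h : j + r ≤ m
    · rw [if_pos (by omega), if_pos h, if_pos h]
      have e : m - j = m - (j + r) + r := by omega
      rw [e]
    · rw [if_neg h, if_neg h]; simp
  rw [Finset.sum_congr rfl (fun m _ => h1 m)]
  rw [sum_shift (fun n => trunc z N (n + r) * conj (trunc z N n)) (N - r) (N + H) (j + r) ?_
    (by omega)]
  · unfold corr
    apply Finset.sum_congr rfl
    intro n hn
    have := Finset.mem_range.1 hn
    simp only [trunc]
    rw [if_pos (by omega), if_pos (by omega)]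
  · intro n hn
    simp only [trunc]
    rw [if_neg (by omega), zero_mul]

theorem norm_sum_prod (z : ℕ → ℂ) (N H j j' : ℕ) (hj : j < H) (hj' : j' < H) :
    ‖∑ m ∈ Finset.range (N + H), shifted z N j m * conj (shifted z N j' m)‖ =
      ‖corr z N (Nat.dist j j')‖ := by
  rcases le_total j j' with h | h
  · obtain ⟨r, rfl⟩ := Nat.exists_eq_add_of_le h
    rw [sum_prod z N H j r hj', Nat.dist_eq_sub_of_le h, Nat.add_sub_cancel_left]
  · obtain ⟨r, rfl⟩ := Nat.exists_eq_add_of_le h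
    rw [Nat.dist_comm, Nat.dist_eq_sub_of_le h, Nat.add_sub_cancel_left,
      ← sum_prod z N H j' r hj, ← RCLike.norm_conj, map_sum]
    congr 1
    apply Finset.sum_congr rfl
    intro m _
    rw [map_mul, Complex.conj_conj, mul_comm]

theorem sum_dist_le (τ : ℕ → ℝ) (hτ : ∀ r, 0 ≤ τ r) (H j : ℕ) (hj : j < H) :
    ∑ j' ∈ Finset.range H, τ (Nat.dist j j') ≤
      τ 0 + 2 * ∑ x ∈ Finset.range (H - 1), τ (x + 1) := by
  obtain ⟨d, rfl⟩ := Nat.exists_eq_add_of_lt hj
  have e : j + d + 1 = j + (1 + d) := by ring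
  rw [e, Finset.sum_range_add, Finset.sum_range_add]
  have h1 : ∑ x ∈ Finset.range j, τ (Nat.dist j x) = ∑ x ∈ Finset.range j, τ (x + 1) := by
    rw [← Finset.sum_range_reflect]
    apply Finset.sum_congr rfl
    intro x hx
    have := Finset.mem_range.1 hx
    rw [Nat.dist_comm, Nat.dist_eq_sub_of_le (by omega)]
    congr 1
    omega
  have h2 : ∑ x ∈ Finset.range d, τ (Nat.dist j (j + (1 + x))) =
      ∑ x ∈ Finset.range d, τ (x + 1) := by
    apply Finset.sum_congr rfl
    intro x hx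
    rw [Nat.dist_eq_sub_of_le (by omega)]
    congr 1
    omega
  rw [h1, h2]
  simp only [Finset.sum_range_one, add_zero, Nat.dist_self]
  have h3 : ∑ x ∈ Finset.range j, τ (x + 1) ≤ ∑ x ∈ Finset.range (j + (1 + d) - 1), τ (x + 1) :=
    Finset.sum_le_sum_of_subset_of_nonneg (Finset.range_subset_range.2 (by omega))
      (fun _ _ _ => hτ _)
  have h4 : ∑ x ∈ Finset.range d, τ (x + 1) ≤ ∑ x ∈ Finset.range (j + (1 + d) - 1), τ (x + 1) :=
    Finset.sum_le_sum_of_subset_of_nonneg (Finset.range_subset_range.2 (by omega))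
      (fun _ _ _ => hτ _)
  linarith

theorem weyl_vdc (z : ℕ → ℂ) (N H : ℕ) (hH : 1 ≤ H) :
    ‖∑ n ∈ Finset.range N, z n‖ ^ 2 * H ≤ (N + H : ℕ) *
      (‖corr z N 0‖ + 2 * ∑ x ∈ Finset.range (H - 1), ‖corr z N (x + 1)‖) := by
  set S := ∑ n ∈ Finset.range N, z n with hS
  have hH' : (0 : ℝ) < H := by exact_mod_cast hH
  have h1 : (H : ℂ) * S = ∑ m ∈ Finset.range (N + H), ∑ j ∈ Finset.range H, shifted z N j m := by
    rw [Finset.sum_comm, Finset.sum_congr rfl (fun j hj => sum_shifted z N H j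
      (Finset.mem_range.1 hj))]
    simp [hS]
  have h2 : (H * ‖S‖) ^ 2 ≤ (N + H : ℕ) *
      ∑ m ∈ Finset.range (N + H), ‖∑ j ∈ Finset.range H, shifted z N j m‖ ^ 2 := by
    have : (H : ℝ) * ‖S‖ = ‖(H : ℂ) * S‖ := by simp
    rw [this, h1]
    have h3 := sq_sum_le_card_mul_sum_sq (s := Finset.range (N + H))
      (f := fun m => ‖∑ j ∈ Finset.range H, shifted z N j m‖)
    rw [Finset.card_range] at h3
    refine le_trans ?_ h3
    exact pow_le_pow_left₀ (norm_nonneg _) (norm_sum_le _ _) 2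
  have h3 : ∑ m ∈ Finset.range (N + H), ‖∑ j ∈ Finset.range H, shifted z N j m‖ ^ 2 ≤
      ∑ j ∈ Finset.range H, ∑ j' ∈ Finset.range H, ‖corr z N (Nat.dist j j')‖ := by
    have h4 : ((∑ m ∈ Finset.range (N + H), ‖∑ j ∈ Finset.range H, shifted z N j m‖ ^ 2 : ℝ) : ℂ) =
        ∑ j ∈ Finset.range H, ∑ j' ∈ Finset.range H,
          ∑ m ∈ Finset.range (N + H), shifted z N j m * conj (shifted z N j' m) := by
      push_cast
      rw [Finset.sum_congr rfl (fun j _ => Finset.sum_comm), Finset.sum_comm]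
      apply Finset.sum_congr rfl
      intro m _
      rw [← Complex.mul_conj', map_sum, Finset.sum_mul_sum]
    have h5 : ∑ m ∈ Finset.range (N + H), ‖∑ j ∈ Finset.range H, shifted z N j m‖ ^ 2 =
        ‖((∑ m ∈ Finset.range (N + H), ‖∑ j ∈ Finset.range H, shifted z N j m‖ ^ 2 : ℝ) : ℂ)‖ := by
      rw [Complex.norm_real, Real.norm_of_nonneg]
      exact Finset.sum_nonneg (fun _ _ => by positivity)
    rw [h5, h4]
    refine (norm_sum_le _ _).trans (Finset.sum_le_sum (fun j hj => ?_))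
    refine (norm_sum_le _ _).trans (Finset.sum_le_sum (fun j' hj' => ?_))
    exact (norm_sum_prod z N H j j' (Finset.mem_range.1 hj) (Finset.mem_range.1 hj')).le
  have h4 : ∑ j ∈ Finset.range H, ∑ j' ∈ Finset.range H, ‖corr z N (Nat.dist j j')‖ ≤
      H * (‖corr z N 0‖ + 2 * ∑ x ∈ Finset.range (H - 1), ‖corr z N (x + 1)‖) := by
    have := Finset.sum_le_card_nsmul (Finset.range H)
      (fun j => ∑ j' ∈ Finset.range H, ‖corr z N (Nat.dist j j')‖)
      (‖corr z N 0‖ + 2 * ∑ x ∈ Finset.range (H - 1), ‖corr z N (x + 1)‖)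
      (fun j hj => sum_dist_le (fun r => ‖corr z N r‖) (fun _ => norm_nonneg _) H j
        (Finset.mem_range.1 hj))
    rwa [Finset.card_range, nsmul_eq_mul] at this
  have h5 : (H * ‖S‖) ^ 2 ≤ (N + H : ℕ) *
      (H * (‖corr z N 0‖ + 2 * ∑ x ∈ Finset.range (H - 1), ‖corr z N (x + 1)‖)) :=
    h2.trans (mul_le_mul_of_nonneg_left (h3.trans h4) (by positivity))
  have h6 : H * (‖S‖ ^ 2 * H) ≤ H * ((N + H : ℕ) *
      (‖corr z N 0‖ + 2 * ∑ x ∈ Finset.range (H - 1), ‖corr z N (x + 1)‖)) := by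
    calc H * (‖S‖ ^ 2 * H) = (H * ‖S‖) ^ 2 := by ring
      _ ≤ _ := h5
      _ = _ := by ring
  exact le_of_mul_le_mul_left h6 hH'

end Pool.Agent.Helper67.KSZ
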