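import Pool.Agent.Helper67.KSZ.ExpSum2
import Pool.Agent.Helper69.QRH.A0

/-! KSZ (MP_768c9c_nt): approximation of zeta by a finite sum (A4). -/

set_option autoImplicit false
open Filter Topology

namespace Pool.Agent.Helper67.KSZ

open Pool.Agent.Helper69.QRH (EZ EZ_eq TT TT_bound EZ_eq_tsum)

theorem tail_step {x : ℝ} (hx : 0 < x) :
    (x + 1) ^ (-(3 / 2) : ℝ) ≤ 2 * x ^ (-(1 / 2) : ℝ) - 2 * (x + 1) ^ (-(1 / 2) : ℝ) := by
  have hx1 : 0 < x + 1 := by linarith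
  set a := Real.sqrt x with ha
  set b := Real.sqrt (x + 1) with hb
  have ha0 : 0 < a := Real.sqrt_pos.2 hx
  have hb0 : 0 < b := Real.sqrt_pos.2 hx1
  have ha2 : a ^ 2 = x := Real.sq_sqrt hx.le
  have hb2 : b ^ 2 = x + 1 := Real.sq_sqrt hx1.le
  have hab : a ≤ b := Real.sqrt_le_sqrt (by linarith)
  have e1 : x ^ (-(1 / 2) : ℝ) = a⁻¹ := by
    rw [Real.rpow_neg hx.le, ← Real.sqrt_eq_rpow]
  have e2 : (x + 1) ^ (-(1 / 2) : ℝ) = b⁻¹ := by
    rw [Real.rpow_neg hx1.le, ← Real.sqrt_eq_rpow]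
  have e3 : (x + 1) ^ (-(3 / 2) : ℝ) = (b ^ 3)⁻¹ := by
    rw [Real.rpow_neg hx1.le]
    congr 1
    rw [show (3 / 2 : ℝ) = 1 + 1 / 2 by norm_num, Real.rpow_add hx1, Real.rpow_one,
      ← Real.sqrt_eq_rpow, ← hb]
    nlinarith
  rw [e1, e2, e3]
  have h1 : (b - a) * (a + b) = 1 := by nlinarith
  have h2 : 2 * a⁻¹ - 2 * b⁻¹ = 2 * (b - a) / (a * b) := by
    field_simp
  rw [h2, inv_eq_one_div, div_le_div_iff₀ (by positivity) (by positivity)]
  have h3 : b - a = 1 / (a + b) := by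
    rw [eq_div_iff (by positivity)]; exact h1
  rw [h3]
  have h4 : a * b * (a + b) ≤ 2 * b ^ 3 := by
    have : a * b * (a + b) ≤ b * b * (b + b) := by gcongr
    nlinarith
  rw [mul_one_div, div_mul_eq_mul_div, le_div_iff₀ (by positivity)]
  linarith

theorem tail_sum {N : ℕ} (hN : 1 ≤ N) (M : ℕ) :
    ∑ n ∈ Finset.range M, (((n + N : ℕ) : ℝ) + 1) ^ (-(3 / 2) : ℝ) ≤
      2 * (N : ℝ) ^ (-(1 / 2) : ℝ) - 2 * ((M + N : ℕ) : ℝ) ^ (-(1 / 2) : ℝ) := by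
  induction M with
  | zero => simp
  | succ M ih =>
    rw [Finset.sum_range_succ]
    have hx : (0 : ℝ) < ((M + N : ℕ) : ℝ) := by exact_mod_cast (by omega : 0 < M + N)
    have h := tail_step hx
    have e : ((M + 1 + N : ℕ) : ℝ) = ((M + N : ℕ) : ℝ) + 1 := by push_cast; ring
    rw [e]
    linarith

theorem summable_TT {s : ℂ} (hs : 0 < s.re) : Summable (fun n : ℕ => TT n s) := by
  refine Summable.of_norm_bounded
    ((Pool.Agent.Helper69.QRH.summable_rpow_aux (r := -s.re - 1) (by linarith)).mul_left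
      (‖s - 1‖ * ‖s‖)) fun n => ?_
  exact TT_bound n hs

theorem tail_TT {s : ℂ} (hs : 1 / 2 ≤ s.re) {N : ℕ} (hN : 1 ≤ N) :
    ‖∑' n : ℕ, TT (n + N) s‖ ≤ ‖s - 1‖ * ‖s‖ * (2 * (N : ℝ) ^ (-(1 / 2) : ℝ)) := by
  have hb : ∀ n : ℕ, ‖TT (n + N) s‖ ≤
      ‖s - 1‖ * ‖s‖ * (((n + N : ℕ) : ℝ) + 1) ^ (-(3 / 2) : ℝ) := by
    intro n
    refine (TT_bound (n + N) (by linarith)).trans ?_
    apply mul_le_mul_of_nonneg_left _ (by positivity)
    apply Real.rpow_le_rpow_of_exponent_le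
    · have : (0 : ℝ) ≤ ((n + N : ℕ) : ℝ) := Nat.cast_nonneg _
      linarith
    · linarith
  have hsum : Summable (fun n : ℕ => (((n + N : ℕ) : ℝ) + 1) ^ (-(3 / 2) : ℝ)) := by
    have h1 := Pool.Agent.Helper69.QRH.summable_rpow_aux (r := -(3 / 2)) (by norm_num)
    exact (summable_nat_add_iff N).2 h1
  refine tsum_of_norm_bounded ((hsum.mul_left (‖s - 1‖ * ‖s‖)).hasSum) hb |>.trans ?_
  rw [tsum_mul_left]
  apply mul_le_mul_of_nonneg_left _ (by positivity)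
  refine hsum.tsum_le_of_sum_range_le fun M => ?_
  refine (tail_sum hN M).trans ?_
  have : (0 : ℝ) ≤ ((M + N : ℕ) : ℝ) ^ (-(1 / 2) : ℝ) := by positivity
  linarith

theorem sum_TT (s : ℂ) (N : ℕ) : ∑ n ∈ Finset.range N, TT n s =
    (∑ n ∈ Finset.range N, (s - 1) * ((n : ℂ) + 1) ^ (-s)) + (((N : ℂ) + 1) ^ (1 - s) - 1) := by
  induction N with
  | zero => simp
  | succ N ih =>
    rw [Finset.sum_range_succ, Finset.sum_range_succ, ih]
    unfold TT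
    push_cast
    have h1 : (N : ℂ) + 1 + 1 = N + 2 := by ring
    rw [h1]
    ring

theorem sum_Icc_one (F : ℕ → ℂ) (N : ℕ) :
    ∑ n ∈ Finset.Icc 1 N, F n = ∑ i ∈ Finset.range N, F (i + 1) := by
  have : Finset.Icc 1 N = Finset.Ico 1 (N + 1) := by
    ext n; simp only [Finset.mem_Icc, Finset.mem_Ico]; omega
  rw [this, Finset.sum_Ico_eq_sum_range]
  simp only [Nat.add_sub_cancel]
  exact Finset.sum_congr rfl (fun i _ => by rw [add_comm])

/-- zeta is a finite sum plus an explicit error -/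
theorem zeta_sum {s : ℂ} (hs : 1 / 2 ≤ s.re) (hs1 : s ≠ 1) (N : ℕ) :
    riemannZeta s - ∑ n ∈ Finset.Icc 1 N, (n : ℂ) ^ (-s) =
      (((N : ℂ) + 1) ^ (1 - s) + ∑' n : ℕ, TT (n + N) s) / (s - 1) := by
  have h1 : (s - 1) * riemannZeta s = ∑' n : ℕ, TT n s + 1 := by
    rw [← EZ_eq hs1, EZ_eq_tsum (by linarith)]
  have h2 := (summable_TT (s := s) (by linarith)).sum_add_tsum_nat_add N
  rw [sum_TT] at h2
  have hne : s - 1 ≠ 0 := sub_ne_zero.2 hs1
  rw [eq_div_iff hne, sum_Icc_one]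
  rw [← Finset.mul_sum] at h2
  have e : ∑ i ∈ Finset.range N, (((i + 1 : ℕ) : ℂ)) ^ (-s) =
      ∑ i ∈ Finset.range N, ((i : ℂ) + 1) ^ (-s) :=
    Finset.sum_congr rfl (fun i _ => by push_cast; rfl)
  rw [e]
  linear_combination h1 - h2

/-- A4 -/
theorem A4 : ∃ C : ℝ, 0 < C ∧ ∀ σ t : ℝ, 1 / 2 ≤ σ → σ ≤ 2 → 2 ≤ t →
    ‖riemannZeta ((σ : ℂ) + (t : ℂ) * Complex.I) -
      ∑ n ∈ Finset.Icc 1 ⌊t ^ 2⌋₊, (n : ℂ) ^ (-((σ : ℂ) + (t : ℂ) * Complex.I))‖ ≤ C := by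
  refine ⟨10, by norm_num, ?_⟩
  intro σ t hσ hσ2 ht
  set s : ℂ := (σ : ℂ) + (t : ℂ) * Complex.I with hs
  have hre : s.re = σ := by simp [hs]
  have him : s.im = t := by simp [hs]
  have ht0 : 0 < t := by linarith
  set N : ℕ := ⌊t ^ 2⌋₊ with hN
  have hNle : (N : ℝ) ≤ t ^ 2 := Nat.floor_le (by positivity)
  have hNge : t ^ 2 / 2 ≤ (N : ℝ) := by
    have := Nat.lt_floor_add_one (t ^ 2)
    rw [← hN] at this
    nlinarith
  have hN1 : 1 ≤ N := by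
    have : (1 : ℝ) ≤ N := by nlinarith
    exact_mod_cast this
  have hN0 : (0 : ℝ) < N := by exact_mod_cast hN1
  have hs1 : s ≠ 1 := by
    intro h
    have := congrArg Complex.im h
    rw [him] at this
    simp at this
    linarith
  rw [zeta_sum (by rw [hre]; exact hσ) hs1 N, norm_div]
  have hns : t ≤ ‖s - 1‖ := by
    have h1 := Complex.abs_im_le_norm (s - 1)
    have h2 : (s - 1).im = t := by simp [him]
    rw [h2, abs_of_pos ht0] at h1
    exact h1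
  have hns2 : ‖s‖ ≤ 2 * t := by
    calc ‖s‖ ≤ ‖(σ : ℂ)‖ + ‖(t : ℂ) * Complex.I‖ := norm_add_le _ _
      _ = |σ| + |t| := by simp
      _ ≤ 2 * t := by
        rw [abs_of_nonneg (by linarith), abs_of_pos ht0]; linarith
  rw [div_le_iff₀ (by linarith)]
  refine (norm_add_le _ _).trans ?_
  have b1 : ‖((N : ℂ) + 1) ^ (1 - s)‖ ≤ 2 * ‖s - 1‖ := by
    have h2 : ((N : ℂ) + 1) = (((N : ℝ) + 1 : ℝ) : ℂ) := by push_cast; ring
    rw [h2, Complex.norm_cpow_eq_rpow_re_of_pos (by positivity)]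
    have h3 : (1 - s).re = 1 - σ := by simp [hre]
    rw [h3]
    have h4 : ((N : ℝ) + 1) ^ (1 - σ) ≤ ((N : ℝ) + 1) ^ (1 / 2 : ℝ) :=
      Real.rpow_le_rpow_of_exponent_le (by linarith) (by linarith)
    have h5 : ((N : ℝ) + 1) ^ (1 / 2 : ℝ) ≤ 2 * t := by
      rw [← Real.sqrt_eq_rpow, Real.sqrt_le_left (by positivity)]
      nlinarith
    linarith
  have b2 := tail_TT (s := s) (by rw [hre]; exact hσ) hN1
  have b3 : ‖s‖ * (2 * (N : ℝ) ^ (-(1 / 2) : ℝ)) ≤ 8 := by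
    have h6 : (N : ℝ) ^ (-(1 / 2) : ℝ) ≤ 2 / t := by
      rw [Real.rpow_neg hN0.le, ← Real.sqrt_eq_rpow, inv_le_comm₀ (Real.sqrt_pos.2 hN0)
        (by positivity), inv_div]
      apply Real.le_sqrt_of_sq_le
      nlinarith
    calc ‖s‖ * (2 * (N : ℝ) ^ (-(1 / 2) : ℝ)) ≤ (2 * t) * (2 * (2 / t)) := by gcongr
      _ = 8 := by field_simp; norm_num
  have b4 : ‖s - 1‖ * ‖s‖ * (2 * (N : ℝ) ^ (-(1 / 2) : ℝ)) ≤ 8 * ‖s - 1‖ := by
    have := mul_le_mul_of_nonneg_left b3 (norm_nonneg (s - 1))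
    linarith
  linarith

/-! ### dyadic decomposition -/

theorem dyadic_aux (F : ℕ → ℂ) (B : ℝ) (M : ℕ) (hB : 0 ≤ B)
    (hF : ∀ N N1 : ℕ, 1 ≤ N → N < N1 → N1 ≤ 2 * N → N1 ≤ M → ‖∑ n ∈ Finset.Ioc N N1, F n‖ ≤ B) :
    ∀ J K : ℕ, K ≤ M → K ≤ 2 ^ J → ‖∑ n ∈ Finset.Ioc 1 K, F n‖ ≤ J * B := by
  intro J
  induction J with
  | zero =>
    intro K _ hK
    rw [Finset.Ioc_eq_empty (by simp at hK; omega)]
    simp
  | succ J ih =>
    intro K hKM hK
    by_cases h1 : K ≤ 1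
    · rw [Finset.Ioc_eq_empty (by omega)]
      simp only [Finset.sum_empty, norm_zero]
      positivity
    push Not at h1
    set N := (K + 1) / 2 with hN
    have hN1 : 1 ≤ N := by omega
    have hNK : N < K := by omega
    have hK2 : K ≤ 2 * N := by omega
    have hNJ : N ≤ 2 ^ J := by
      rw [pow_succ] at hK; omega
    have e : Finset.Ioc 1 K = Finset.Ioc 1 N ∪ Finset.Ioc N K :=
      (Finset.Ioc_union_Ioc_eq_Ioc hN1 hNK.le).symm
    have hd : Disjoint (Finset.Ioc 1 N) (Finset.Ioc N K) := by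
      rw [Finset.disjoint_left]
      intro n h h'
      rw [Finset.mem_Ioc] at h h'
      omega
    rw [e, Finset.sum_union hd]
    refine (norm_add_le _ _).trans ?_
    have h2 := ih N (by omega) hNJ
    have h3 := hF N K hN1 hNK hK2 hKM
    push_cast
    linarith

/-- the dyadic decomposition of `[1, x]` -/
theorem dyadic (F : ℕ → ℂ) (B : ℝ) (M : ℕ) (hM : 1 ≤ M) (hB : 0 ≤ B) (h1 : ‖F 1‖ ≤ B)
    (hF : ∀ N N1 : ℕ, 1 ≤ N → N < N1 → N1 ≤ 2 * N → N1 ≤ M → ‖∑ n ∈ Finset.Ioc N N1, F n‖ ≤ B) :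
    ‖∑ n ∈ Finset.Icc 1 M, F n‖ ≤ (2 * Real.log M + 2) * B := by
  have e : Finset.Icc 1 M = insert 1 (Finset.Ioc 1 M) := by
    ext n; simp only [Finset.mem_Icc, Finset.mem_insert, Finset.mem_Ioc]; omega
  rw [e, Finset.sum_insert (by simp)]
  refine (norm_add_le _ _).trans ?_
  have h2 := dyadic_aux F B M hB hF (Nat.clog 2 M) M le_rfl (Nat.le_pow_clog (by norm_num) M)
  have h3 : ((Nat.clog 2 M : ℕ) : ℝ) ≤ 2 * Real.log M + 1 := by
    rcases Nat.lt_or_ge M 2 with h | h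
    · have : M = 1 := by omega
      subst this
      simp
    · have h4 : 2 ^ (Nat.clog 2 M - 1) < M := by
        have := Nat.pow_pred_clog_lt_self (b := 2) (by norm_num) (x := M) (by omega)
        simpa using this
      have h5 : ((Nat.clog 2 M - 1 : ℕ) : ℝ) * Real.log 2 ≤ Real.log M := by
        rw [← Real.log_pow]
        apply Real.log_le_log (by positivity)
        exact_mod_cast h4.le
      have h6 : 1 ≤ Nat.clog 2 M := Nat.one_le_iff_ne_zero.2 (by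
        intro h0
        have := (Nat.clog_pos (b := 2) (by norm_num) (n := M) h)
        omega)
      rw [Nat.cast_sub h6] at h5
      push_cast at h5
      have hl2 := Real.log_two_gt_d9
      have h7 : 0 ≤ ((Nat.clog 2 M : ℕ) : ℝ) - 1 := by
        have : (1 : ℝ) ≤ ((Nat.clog 2 M : ℕ) : ℝ) := by exact_mod_cast h6
        linarith
      nlinarith
  have h4 := mul_le_mul_of_nonneg_right h3 hB
  linarith

end Pool.Agent.Helper67.KSZ
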